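import Pool.Agent.H15.Cyc.Sv.Vec
import Pool.Agent.H15.Cyc.Sv.BaseN

set_option autoImplicit false

namespace Pool.Agent.H15.Cyc.Sv

theorem cN0x0 :
    chk stN 4805 bN0p bN0z bN0a 1 52 0 137 = true ∧
    chk stN 4805 bN0p bN0z bN0a 1 52 1 141 = true ∧
    chk stN 4805 bN0p bN0z bN0a 1 52 2 142 = true ∧
    chk stN 4805 bN0p bN0z bN0a 1 52 3 140 = true ∧
    chk stN 4805 bN0p bN0z bN0a 1 52 4 136 = true ∧
    chk stN 4805 bN0p bN0z bN0a 1 52 5 138 = true ∧
    chk stN 4805 bN0p bN0z bN0a 1 52 6 135 = true ∧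
    chk stN 4805 bN0p bN0z bN0a 1 52 7 144 = true ∧
    chk stN 4805 bN0p bN0z bN0a 1 52 8 138 = true ∧
    chk stN 4805 bN0p bN0z bN0a 1 52 9 145 = true ∧
    chk stN 4805 bN0p bN0z bN0a 1 52 10 139 = true ∧
    chk stN 4805 bN0p bN0z bN0a 1 52 11 144 = true ∧
    chk stN 4805 bN0p bN0z bN0a 1 52 12 142 = true ∧
    chk stN 4805 bN0p bN0z bN0a 1 52 13 138 = true ∧
    chk stN 4805 bN0p bN0z bN0a 1 52 14 135 = true ∧
    chk stN 4805 bN0p bN0z bN0a 1 52 15 136 = true ∧
    chk stN 4805 bN0p bN0z bN0a 1 52 16 137 = true ∧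
    chk stN 4805 bN0p bN0z bN0a 1 52 17 137 = true ∧
    chk stN 4805 bN0p bN0z bN0a 1 52 18 149 = true ∧
    chk stN 4805 bN0p bN0z bN0a 1 52 19 132 = true ∧
    chk stN 4805 bN0p bN0z bN0a 1 52 20 139 = true ∧
    chk stN 4805 bN0p bN0z bN0a 1 52 21 137 = true ∧
    chk stN 4805 bN0p bN0z bN0a 1 52 22 141 = true ∧
    chk stN 4805 bN0p bN0z bN0a 1 52 23 135 = true :=
  ⟨by decide +kernel,
    by decide +kernel,
    by decide +kernel,
    by decide +kernel,
    by decide +kernel,
    by decide +kernel,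
    by decide +kernel,
    by decide +kernel,
    by decide +kernel,
    by decide +kernel,
    by decide +kernel,
    by decide +kernel,
    by decide +kernel,
    by decide +kernel,
    by decide +kernel,
    by decide +kernel,
    by decide +kernel,
    by decide +kernel,
    by decide +kernel,
    by decide +kernel,
    by decide +kernel,
    by decide +kernel,
    by decide +kernel,
    by decide +kernel⟩

end Pool.Agent.H15.Cyc.Sv
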