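import Pool.Agent.H15.Cyc.Sv.Vec
import Pool.Agent.H15.Cyc.Sv.BaseN

set_option autoImplicit false

namespace Pool.Agent.H15.Cyc.Sv

theorem cN0x1 :
    chk stN 4805 bN0p bN0z bN0a 1 52 24 161 = true ∧
    chk stN 4805 bN0p bN0z bN0a 1 52 25 141 = true ∧
    chk stN 4805 bN0p bN0z bN0a 1 52 26 138 = true ∧
    chk stN 4805 bN0p bN0z bN0a 1 52 27 139 = true ∧
    chk stN 4805 bN0p bN0z bN0a 1 52 28 136 = true ∧
    chk stN 4805 bN0p bN0z bN0a 1 52 29 143 = true ∧
    chk stN 4805 bN0p bN0z bN0a 1 52 30 141 = true ∧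
    chk stN 4805 bN0p bN0z bN0a 1 52 31 137 = true ∧
    chk stN 4805 bN0p bN0z bN0a 1 52 32 138 = true ∧
    chk stN 4805 bN0p bN0z bN0a 1 52 33 140 = true ∧
    chk stN 4805 bN0p bN0z bN0a 1 52 34 141 = true ∧
    chk stN 4805 bN0p bN0z bN0a 1 52 35 140 = true ∧
    chk stN 4805 bN0p bN0z bN0a 1 52 36 138 = true ∧
    chk stN 4805 bN0p bN0z bN0a 1 52 37 132 = true ∧
    chk stN 4805 bN0p bN0z bN0a 1 52 38 131 = true ∧
    chk stN 4805 bN0p bN0z bN0a 1 52 39 134 = true ∧
    chk stN 4805 bN0p bN0z bN0a 1 52 40 132 = true ∧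
    chk stN 4805 bN0p bN0z bN0a 1 52 41 138 = true ∧
    chk stN 4805 bN0p bN0z bN0a 1 52 42 142 = true ∧
    chk stN 4805 bN0p bN0z bN0a 1 52 43 136 = true ∧
    chk stN 4805 bN0p bN0z bN0a 1 52 44 141 = true ∧
    chk stN 4805 bN0p bN0z bN0a 1 52 45 154 = true ∧
    chk stN 4805 bN0p bN0z bN0a 1 52 46 135 = true ∧
    chk stN 4805 bN0p bN0z bN0a 1 52 47 137 = true :=
  ⟨by decide +kernel,
    by decide +kernel,
    by decide +kernel,
    by decide +kernel,
    by decide +kernel,
    by decide +kernel,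
    by decide +kernel,
    by decide +kernel,
    by decide +kernel,
    by decide +kernel,
    by decide +kernel,
    by decide +kernel,
    by decide +kernel,
    by decide +kernel,
    by decide +kernel,
    by decide +kernel,
    by decide +kernel,
    by decide +kernel,
    by decide +kernel,
    by decide +kernel,
    by decide +kernel,
    by decide +kernel,
    by decide +kernel,
    by decide +kernel⟩

end Pool.Agent.H15.Cyc.Sv
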