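import Pool.Agent.H15.Cyc.Sv.Vec
import Pool.Agent.H15.Cyc.Sv.BaseN

set_option autoImplicit false

namespace Pool.Agent.H15.Cyc.Sv

theorem cN0x2 :
    chk stN 4805 bN0p bN0z bN0a 1 52 48 140 = true ∧
    chk stN 4805 bN0p bN0z bN0a 1 52 49 140 = true ∧
    chk stN 4805 bN0p bN0z bN0a 1 52 50 137 = true ∧
    chk stN 4805 bN0p bN0z bN0a 1 52 51 132 = true ∧
    chk stN 4805 bN0p bN0z bN0a 1 52 52 139 = true ∧
    chk stN 4805 bN0p bN0z bN0a 1 52 53 134 = true ∧
    chk stN 4805 bN0p bN0z bN0a 1 52 54 132 = true ∧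
    chk stN 4805 bN0p bN0z bN0a 1 52 55 135 = true ∧
    chk stN 4805 bN0p bN0z bN0a 1 52 56 135 = true ∧
    chk stN 4805 bN0p bN0z bN0a 1 52 57 137 = true ∧
    chk stN 4805 bN0p bN0z bN0a 1 52 58 142 = true ∧
    chk stN 4805 bN0p bN0z bN0a 1 52 59 152 = true ∧
    chk stN 4805 bN0p bN0z bN0a 1 52 60 146 = true ∧
    chk stN 4805 bN0p bN0z bN0a 1 52 61 137 = true ∧
    chk stN 4805 bN0p bN0z bN0a 1 52 62 136 = true ∧
    chk stN 4805 bN0p bN0z bN0a 1 52 63 132 = true ∧
    chk stN 4805 bN0p bN0z bN0a 1 52 64 136 = true ∧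
    chk stN 4805 bN0p bN0z bN0a 1 52 65 139 = true ∧
    chk stN 4805 bN0p bN0z bN0a 1 52 66 133 = true ∧
    chk stN 4805 bN0p bN0z bN0a 1 52 67 138 = true ∧
    chk stN 4805 bN0p bN0z bN0a 1 52 68 138 = true ∧
    chk stN 4805 bN0p bN0z bN0a 1 52 69 147 = true ∧
    chk stN 4805 bN0p bN0z bN0a 1 52 70 148 = true ∧
    chk stN 4805 bN0p bN0z bN0a 1 52 71 137 = true :=
  ⟨by decide +kernel,
    by decide +kernel,
    by decide +kernel,
    by decide +kernel,
    by decide +kernel,
    by decide +kernel,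
    by decide +kernel,
    by decide +kernel,
    by decide +kernel,
    by decide +kernel,
    by decide +kernel,
    by decide +kernel,
    by decide +kernel,
    by decide +kernel,
    by decide +kernel,
    by decide +kernel,
    by decide +kernel,
    by decide +kernel,
    by decide +kernel,
    by decide +kernel,
    by decide +kernel,
    by decide +kernel,
    by decide +kernel,
    by decide +kernel⟩

end Pool.Agent.H15.Cyc.Sv
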