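import Pool.Agent.H15.Cyc.Sv.Vec
import Pool.Agent.H15.Cyc.Sv.BaseN

set_option autoImplicit false

namespace Pool.Agent.H15.Cyc.Sv

theorem cN0x3 :
    chk stN 4805 bN0p bN0z bN0a 1 52 72 133 = true ∧
    chk stN 4805 bN0p bN0z bN0a 1 52 73 133 = true ∧
    chk stN 4805 bN0p bN0z bN0a 1 52 74 139 = true ∧
    chk stN 4805 bN0p bN0z bN0a 1 52 75 133 = true ∧
    chk stN 4805 bN0p bN0z bN0a 1 52 76 141 = true ∧
    chk stN 4805 bN0p bN0z bN0a 1 52 77 139 = true ∧
    chk stN 4805 bN0p bN0z bN0a 1 52 78 136 = true ∧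
    chk stN 4805 bN0p bN0z bN0a 1 52 79 139 = true ∧
    chk stN 4805 bN0p bN0z bN0a 1 52 80 139 = true ∧
    chk stN 4805 bN0p bN0z bN0a 1 52 81 139 = true ∧
    chk stN 4805 bN0p bN0z bN0a 1 52 82 137 = true ∧
    chk stN 4805 bN0p bN0z bN0a 1 52 83 152 = true ∧
    chk stN 4805 bN0p bN0z bN0a 1 52 84 136 = true ∧
    chk stN 4805 bN0p bN0z bN0a 1 52 85 141 = true ∧
    chk stN 4805 bN0p bN0z bN0a 1 52 86 141 = true ∧
    chk stN 4805 bN0p bN0z bN0a 1 52 87 141 = true ∧
    chk stN 4805 bN0p bN0z bN0a 1 52 88 138 = true ∧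
    chk stN 4805 bN0p bN0z bN0a 1 52 89 135 = true ∧
    chk stN 4805 bN0p bN0z bN0a 1 52 90 137 = true ∧
    chk stN 4805 bN0p bN0z bN0a 1 52 91 136 = true ∧
    chk stN 4805 bN0p bN0z bN0a 1 52 92 136 = true ∧
    chk stN 4805 bN0p bN0z bN0a 1 52 93 142 = true ∧
    chk stN 4805 bN0p bN0z bN0a 1 52 94 135 = true ∧
    chk stN 4805 bN0p bN0z bN0a 1 52 95 140 = true :=
  ⟨by decide +kernel,
    by decide +kernel,
    by decide +kernel,
    by decide +kernel,
    by decide +kernel,
    by decide +kernel,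
    by decide +kernel,
    by decide +kernel,
    by decide +kernel,
    by decide +kernel,
    by decide +kernel,
    by decide +kernel,
    by decide +kernel,
    by decide +kernel,
    by decide +kernel,
    by decide +kernel,
    by decide +kernel,
    by decide +kernel,
    by decide +kernel,
    by decide +kernel,
    by decide +kernel,
    by decide +kernel,
    by decide +kernel,
    by decide +kernel⟩

end Pool.Agent.H15.Cyc.Sv
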