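import Pool.Agent.H15.Cyc.Sv.Vec
import Pool.Agent.H15.Cyc.Sv.BaseN

set_option autoImplicit false

namespace Pool.Agent.H15.Cyc.Sv

theorem cN1x0 :
    chk stN 3650 bN1p bN1z bN1a 1 48 0 192 = true ∧
    chk stN 3650 bN1p bN1z bN1a 1 48 1 177 = true ∧
    chk stN 3650 bN1p bN1z bN1a 1 48 2 185 = true ∧
    chk stN 3650 bN1p bN1z bN1a 1 48 3 178 = true ∧
    chk stN 3650 bN1p bN1z bN1a 1 48 4 182 = true ∧
    chk stN 3650 bN1p bN1z bN1a 1 48 5 179 = true ∧
    chk stN 3650 bN1p bN1z bN1a 1 48 6 187 = true ∧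
    chk stN 3650 bN1p bN1z bN1a 1 48 7 180 = true ∧
    chk stN 3650 bN1p bN1z bN1a 1 48 8 178 = true ∧
    chk stN 3650 bN1p bN1z bN1a 1 48 9 180 = true ∧
    chk stN 3650 bN1p bN1z bN1a 1 48 10 197 = true ∧
    chk stN 3650 bN1p bN1z bN1a 1 48 11 190 = true ∧
    chk stN 3650 bN1p bN1z bN1a 1 48 12 182 = true ∧
    chk stN 3650 bN1p bN1z bN1a 1 48 13 174 = true ∧
    chk stN 3650 bN1p bN1z bN1a 1 48 14 180 = true ∧
    chk stN 3650 bN1p bN1z bN1a 1 48 15 187 = true ∧
    chk stN 3650 bN1p bN1z bN1a 1 48 16 173 = true ∧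
    chk stN 3650 bN1p bN1z bN1a 1 48 17 183 = true ∧
    chk stN 3650 bN1p bN1z bN1a 1 48 18 182 = true ∧
    chk stN 3650 bN1p bN1z bN1a 1 48 19 179 = true ∧
    chk stN 3650 bN1p bN1z bN1a 1 48 20 177 = true ∧
    chk stN 3650 bN1p bN1z bN1a 1 48 21 183 = true ∧
    chk stN 3650 bN1p bN1z bN1a 1 48 22 191 = true ∧
    chk stN 3650 bN1p bN1z bN1a 1 48 23 187 = true ∧
    chk stN 3650 bN1p bN1z bN1a 1 48 24 185 = true ∧
    chk stN 3650 bN1p bN1z bN1a 1 48 25 184 = true :=
  ⟨by decide +kernel,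
    by decide +kernel,
    by decide +kernel,
    by decide +kernel,
    by decide +kernel,
    by decide +kernel,
    by decide +kernel,
    by decide +kernel,
    by decide +kernel,
    by decide +kernel,
    by decide +kernel,
    by decide +kernel,
    by decide +kernel,
    by decide +kernel,
    by decide +kernel,
    by decide +kernel,
    by decide +kernel,
    by decide +kernel,
    by decide +kernel,
    by decide +kernel,
    by decide +kernel,
    by decide +kernel,
    by decide +kernel,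
    by decide +kernel,
    by decide +kernel,
    by decide +kernel⟩

end Pool.Agent.H15.Cyc.Sv
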