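import Pool.Agent.H15.Cyc.Sv.Vec
import Pool.Agent.H15.Cyc.Sv.BaseN

set_option autoImplicit false

namespace Pool.Agent.H15.Cyc.Sv

theorem cN1x1 :
    chk stN 3650 bN1p bN1z bN1a 1 48 26 182 = true ∧
    chk stN 3650 bN1p bN1z bN1a 1 48 27 180 = true ∧
    chk stN 3650 bN1p bN1z bN1a 1 48 28 178 = true ∧
    chk stN 3650 bN1p bN1z bN1a 1 48 29 198 = true ∧
    chk stN 3650 bN1p bN1z bN1a 1 48 30 179 = true ∧
    chk stN 3650 bN1p bN1z bN1a 1 48 31 178 = true ∧
    chk stN 3650 bN1p bN1z bN1a 1 48 32 186 = true ∧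
    chk stN 3650 bN1p bN1z bN1a 1 48 33 186 = true ∧
    chk stN 3650 bN1p bN1z bN1a 1 48 34 178 = true ∧
    chk stN 3650 bN1p bN1z bN1a 1 48 35 182 = true ∧
    chk stN 3650 bN1p bN1z bN1a 1 48 36 182 = true ∧
    chk stN 3650 bN1p bN1z bN1a 1 48 37 198 = true ∧
    chk stN 3650 bN1p bN1z bN1a 1 48 38 184 = true ∧
    chk stN 3650 bN1p bN1z bN1a 1 48 39 180 = true ∧
    chk stN 3650 bN1p bN1z bN1a 1 48 40 174 = true ∧
    chk stN 3650 bN1p bN1z bN1a 1 48 41 193 = true ∧
    chk stN 3650 bN1p bN1z bN1a 1 48 42 186 = true ∧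
    chk stN 3650 bN1p bN1z bN1a 1 48 43 177 = true ∧
    chk stN 3650 bN1p bN1z bN1a 1 48 44 200 = true ∧
    chk stN 3650 bN1p bN1z bN1a 1 48 45 178 = true ∧
    chk stN 3650 bN1p bN1z bN1a 1 48 46 182 = true ∧
    chk stN 3650 bN1p bN1z bN1a 1 48 47 181 = true ∧
    chk stN 3650 bN1p bN1z bN1a 1 48 48 184 = true ∧
    chk stN 3650 bN1p bN1z bN1a 1 48 49 187 = true ∧
    chk stN 3650 bN1p bN1z bN1a 1 48 50 181 = true ∧
    chk stN 3650 bN1p bN1z bN1a 1 48 51 178 = true :=
  ⟨by decide +kernel,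
    by decide +kernel,
    by decide +kernel,
    by decide +kernel,
    by decide +kernel,
    by decide +kernel,
    by decide +kernel,
    by decide +kernel,
    by decide +kernel,
    by decide +kernel,
    by decide +kernel,
    by decide +kernel,
    by decide +kernel,
    by decide +kernel,
    by decide +kernel,
    by decide +kernel,
    by decide +kernel,
    by decide +kernel,
    by decide +kernel,
    by decide +kernel,
    by decide +kernel,
    by decide +kernel,
    by decide +kernel,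
    by decide +kernel,
    by decide +kernel,
    by decide +kernel⟩

end Pool.Agent.H15.Cyc.Sv
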