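import Pool.Agent.H15.Cyc.Sv.Vec
import Pool.Agent.H15.Cyc.Sv.BaseN

set_option autoImplicit false

namespace Pool.Agent.H15.Cyc.Sv

theorem cN1x2 :
    chk stN 3650 bN1p bN1z bN1a 1 48 52 178 = true ∧
    chk stN 3650 bN1p bN1z bN1a 1 48 53 185 = true ∧
    chk stN 3650 bN1p bN1z bN1a 1 48 54 176 = true ∧
    chk stN 3650 bN1p bN1z bN1a 1 48 55 190 = true ∧
    chk stN 3650 bN1p bN1z bN1a 1 48 56 189 = true ∧
    chk stN 3650 bN1p bN1z bN1a 1 48 57 183 = true ∧
    chk stN 3650 bN1p bN1z bN1a 1 48 58 173 = true ∧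
    chk stN 3650 bN1p bN1z bN1a 1 48 59 170 = true ∧
    chk stN 3650 bN1p bN1z bN1a 1 48 60 173 = true ∧
    chk stN 3650 bN1p bN1z bN1a 1 48 61 177 = true ∧
    chk stN 3650 bN1p bN1z bN1a 1 48 62 179 = true ∧
    chk stN 3650 bN1p bN1z bN1a 1 48 63 206 = true ∧
    chk stN 3650 bN1p bN1z bN1a 1 48 64 180 = true ∧
    chk stN 3650 bN1p bN1z bN1a 1 48 65 179 = true ∧
    chk stN 3650 bN1p bN1z bN1a 1 48 66 185 = true ∧
    chk stN 3650 bN1p bN1z bN1a 1 48 67 188 = true ∧
    chk stN 3650 bN1p bN1z bN1a 1 48 68 176 = true ∧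
    chk stN 3650 bN1p bN1z bN1a 1 48 69 182 = true ∧
    chk stN 3650 bN1p bN1z bN1a 1 48 70 186 = true ∧
    chk stN 3650 bN1p bN1z bN1a 1 48 71 187 = true ∧
    chk stN 3650 bN1p bN1z bN1a 1 48 72 181 = true ∧
    chk stN 3650 bN1p bN1z bN1a 1 48 73 171 = true ∧
    chk stN 3650 bN1p bN1z bN1a 1 48 74 180 = true ∧
    chk stN 3650 bN1p bN1z bN1a 1 48 75 175 = true ∧
    chk stN 3650 bN1p bN1z bN1a 1 48 76 175 = true ∧
    chk stN 3650 bN1p bN1z bN1a 1 48 77 176 = true :=
  ⟨by decide +kernel,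
    by decide +kernel,
    by decide +kernel,
    by decide +kernel,
    by decide +kernel,
    by decide +kernel,
    by decide +kernel,
    by decide +kernel,
    by decide +kernel,
    by decide +kernel,
    by decide +kernel,
    by decide +kernel,
    by decide +kernel,
    by decide +kernel,
    by decide +kernel,
    by decide +kernel,
    by decide +kernel,
    by decide +kernel,
    by decide +kernel,
    by decide +kernel,
    by decide +kernel,
    by decide +kernel,
    by decide +kernel,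
    by decide +kernel,
    by decide +kernel,
    by decide +kernel⟩

end Pool.Agent.H15.Cyc.Sv
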