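import Pool.Agent.H15.Cyc.Sv.Vec
import Pool.Agent.H15.Cyc.Sv.BaseN

set_option autoImplicit false

namespace Pool.Agent.H15.Cyc.Sv

theorem cN1x3 :
    chk stN 3650 bN1p bN1z bN1a 1 48 78 182 = true ∧
    chk stN 3650 bN1p bN1z bN1a 1 48 79 189 = true ∧
    chk stN 3650 bN1p bN1z bN1a 1 48 80 196 = true ∧
    chk stN 3650 bN1p bN1z bN1a 1 48 81 176 = true ∧
    chk stN 3650 bN1p bN1z bN1a 1 48 82 177 = true ∧
    chk stN 3650 bN1p bN1z bN1a 1 48 83 172 = true ∧
    chk stN 3650 bN1p bN1z bN1a 1 48 84 183 = true ∧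
    chk stN 3650 bN1p bN1z bN1a 1 48 85 178 = true ∧
    chk stN 3650 bN1p bN1z bN1a 1 48 86 180 = true ∧
    chk stN 3650 bN1p bN1z bN1a 1 48 87 181 = true ∧
    chk stN 3650 bN1p bN1z bN1a 1 48 88 179 = true ∧
    chk stN 3650 bN1p bN1z bN1a 1 48 89 180 = true ∧
    chk stN 3650 bN1p bN1z bN1a 1 48 90 174 = true ∧
    chk stN 3650 bN1p bN1z bN1a 1 48 91 182 = true ∧
    chk stN 3650 bN1p bN1z bN1a 1 48 92 173 = true ∧
    chk stN 3650 bN1p bN1z bN1a 1 48 93 174 = true ∧
    chk stN 3650 bN1p bN1z bN1a 1 48 94 177 = true ∧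
    chk stN 3650 bN1p bN1z bN1a 1 48 95 181 = true ∧
    chk stN 3650 bN1p bN1z bN1a 1 48 96 197 = true ∧
    chk stN 3650 bN1p bN1z bN1a 1 48 97 178 = true ∧
    chk stN 3650 bN1p bN1z bN1a 1 48 98 178 = true ∧
    chk stN 3650 bN1p bN1z bN1a 1 48 99 188 = true ∧
    chk stN 3650 bN1p bN1z bN1a 1 48 100 191 = true ∧
    chk stN 3650 bN1p bN1z bN1a 1 48 101 182 = true ∧
    chk stN 3650 bN1p bN1z bN1a 1 48 102 181 = true ∧
    chk stN 3650 bN1p bN1z bN1a 1 48 103 181 = true :=
  ⟨by decide +kernel,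
    by decide +kernel,
    by decide +kernel,
    by decide +kernel,
    by decide +kernel,
    by decide +kernel,
    by decide +kernel,
    by decide +kernel,
    by decide +kernel,
    by decide +kernel,
    by decide +kernel,
    by decide +kernel,
    by decide +kernel,
    by decide +kernel,
    by decide +kernel,
    by decide +kernel,
    by decide +kernel,
    by decide +kernel,
    by decide +kernel,
    by decide +kernel,
    by decide +kernel,
    by decide +kernel,
    by decide +kernel,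
    by decide +kernel,
    by decide +kernel,
    by decide +kernel⟩

end Pool.Agent.H15.Cyc.Sv
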