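import Pool.Agent.H15.Cyc.Sv.Vec
import Pool.Agent.H15.Cyc.Sv.BaseN

set_option autoImplicit false

namespace Pool.Agent.H15.Cyc.Sv

theorem cN2x0 :
    chk stN 1600 bN2p bN2z bN2a 3 26 0 149 = true ∧
    chk stN 1600 bN2p bN2z bN2a 3 26 1 148 = true ∧
    chk stN 1600 bN2p bN2z bN2a 3 26 2 146 = true ∧
    chk stN 1600 bN2p bN2z bN2a 3 26 3 154 = true ∧
    chk stN 1600 bN2p bN2z bN2a 3 26 4 148 = true ∧
    chk stN 1600 bN2p bN2z bN2a 3 26 5 144 = true ∧
    chk stN 1600 bN2p bN2z bN2a 3 26 6 152 = true ∧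
    chk stN 1600 bN2p bN2z bN2a 3 26 7 151 = true ∧
    chk stN 1600 bN2p bN2z bN2a 3 26 8 140 = true ∧
    chk stN 1600 bN2p bN2z bN2a 3 26 9 143 = true ∧
    chk stN 1600 bN2p bN2z bN2a 3 26 10 140 = true ∧
    chk stN 1600 bN2p bN2z bN2a 3 26 11 153 = true ∧
    chk stN 1600 bN2p bN2z bN2a 3 26 12 140 = true ∧
    chk stN 1600 bN2p bN2z bN2a 3 26 13 148 = true ∧
    chk stN 1600 bN2p bN2z bN2a 3 26 14 146 = true ∧
    chk stN 1600 bN2p bN2z bN2a 3 26 15 149 = true ∧
    chk stN 1600 bN2p bN2z bN2a 3 26 16 140 = true ∧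
    chk stN 1600 bN2p bN2z bN2a 3 26 17 149 = true ∧
    chk stN 1600 bN2p bN2z bN2a 3 26 18 139 = true ∧
    chk stN 1600 bN2p bN2z bN2a 3 26 19 153 = true ∧
    chk stN 1600 bN2p bN2z bN2a 3 26 20 146 = true ∧
    chk stN 1600 bN2p bN2z bN2a 3 26 21 148 = true ∧
    chk stN 1600 bN2p bN2z bN2a 3 26 22 145 = true ∧
    chk stN 1600 bN2p bN2z bN2a 3 26 23 145 = true ∧
    chk stN 1600 bN2p bN2z bN2a 3 26 24 143 = true ∧
    chk stN 1600 bN2p bN2z bN2a 3 26 25 149 = true ∧
    chk stN 1600 bN2p bN2z bN2a 3 26 26 144 = true ∧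
    chk stN 1600 bN2p bN2z bN2a 3 26 27 154 = true ∧
    chk stN 1600 bN2p bN2z bN2a 3 26 28 152 = true ∧
    chk stN 1600 bN2p bN2z bN2a 3 26 29 152 = true ∧
    chk stN 1600 bN2p bN2z bN2a 3 26 30 163 = true ∧
    chk stN 1600 bN2p bN2z bN2a 3 26 31 144 = true :=
  ⟨by decide +kernel,
    by decide +kernel,
    by decide +kernel,
    by decide +kernel,
    by decide +kernel,
    by decide +kernel,
    by decide +kernel,
    by decide +kernel,
    by decide +kernel,
    by decide +kernel,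
    by decide +kernel,
    by decide +kernel,
    by decide +kernel,
    by decide +kernel,
    by decide +kernel,
    by decide +kernel,
    by decide +kernel,
    by decide +kernel,
    by decide +kernel,
    by decide +kernel,
    by decide +kernel,
    by decide +kernel,
    by decide +kernel,
    by decide +kernel,
    by decide +kernel,
    by decide +kernel,
    by decide +kernel,
    by decide +kernel,
    by decide +kernel,
    by decide +kernel,
    by decide +kernel,
    by decide +kernel⟩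

end Pool.Agent.H15.Cyc.Sv
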