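import Pool.Agent.H15.Cyc.Sv.Vec
import Pool.Agent.H15.Cyc.Sv.BaseN

set_option autoImplicit false

namespace Pool.Agent.H15.Cyc.Sv

theorem cN3x0 :
    chk stN 515 bN3p bN3z bN3a 9 14 0 130 = true ∧
    chk stN 515 bN3p bN3z bN3a 9 14 1 134 = true ∧
    chk stN 515 bN3p bN3z bN3a 9 14 2 132 = true ∧
    chk stN 515 bN3p bN3z bN3a 9 14 3 124 = true ∧
    chk stN 515 bN3p bN3z bN3a 9 14 4 127 = true ∧
    chk stN 515 bN3p bN3z bN3a 9 14 5 122 = true ∧
    chk stN 515 bN3p bN3z bN3a 9 14 6 134 = true ∧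
    chk stN 515 bN3p bN3z bN3a 9 14 7 139 = true ∧
    chk stN 515 bN3p bN3z bN3a 9 14 8 122 = true ∧
    chk stN 515 bN3p bN3z bN3a 9 14 9 121 = true ∧
    chk stN 515 bN3p bN3z bN3a 9 14 10 127 = true ∧
    chk stN 515 bN3p bN3z bN3a 9 14 11 126 = true ∧
    chk stN 515 bN3p bN3z bN3a 9 14 12 120 = true ∧
    chk stN 515 bN3p bN3z bN3a 9 14 13 120 = true ∧
    chk stN 515 bN3p bN3z bN3a 9 14 14 124 = true ∧
    chk stN 515 bN3p bN3z bN3a 9 14 15 125 = true ∧
    chk stN 515 bN3p bN3z bN3a 9 14 16 154 = true ∧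
    chk stN 515 bN3p bN3z bN3a 9 14 17 124 = true ∧
    chk stN 515 bN3p bN3z bN3a 9 14 18 149 = true ∧
    chk stN 515 bN3p bN3z bN3a 9 14 19 126 = true :=
  ⟨by decide +kernel,
    by decide +kernel,
    by decide +kernel,
    by decide +kernel,
    by decide +kernel,
    by decide +kernel,
    by decide +kernel,
    by decide +kernel,
    by decide +kernel,
    by decide +kernel,
    by decide +kernel,
    by decide +kernel,
    by decide +kernel,
    by decide +kernel,
    by decide +kernel,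
    by decide +kernel,
    by decide +kernel,
    by decide +kernel,
    by decide +kernel,
    by decide +kernel⟩

end Pool.Agent.H15.Cyc.Sv
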