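import Pool.Agent.H15.Cyc.Sv.Vec
import Pool.Agent.H15.Cyc.Sv.BaseN

set_option autoImplicit false

namespace Pool.Agent.H15.Cyc.Sv

theorem cN3x1 :
    chk stN 515 bN3p bN3z bN3a 9 14 20 142 = true ∧
    chk stN 515 bN3p bN3z bN3a 9 14 21 136 = true ∧
    chk stN 515 bN3p bN3z bN3a 9 14 22 118 = true ∧
    chk stN 515 bN3p bN3z bN3a 9 14 23 129 = true ∧
    chk stN 515 bN3p bN3z bN3a 9 14 24 129 = true ∧
    chk stN 515 bN3p bN3z bN3a 9 14 25 133 = true ∧
    chk stN 515 bN3p bN3z bN3a 9 14 26 138 = true ∧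
    chk stN 515 bN3p bN3z bN3a 9 14 27 124 = true ∧
    chk stN 515 bN3p bN3z bN3a 9 14 28 138 = true ∧
    chk stN 515 bN3p bN3z bN3a 9 14 29 128 = true ∧
    chk stN 515 bN3p bN3z bN3a 9 14 30 124 = true ∧
    chk stN 515 bN3p bN3z bN3a 9 14 31 125 = true ∧
    chk stN 515 bN3p bN3z bN3a 9 14 32 130 = true ∧
    chk stN 515 bN3p bN3z bN3a 9 14 33 127 = true ∧
    chk stN 515 bN3p bN3z bN3a 9 14 34 118 = true ∧
    chk stN 515 bN3p bN3z bN3a 9 14 35 137 = true ∧
    chk stN 515 bN3p bN3z bN3a 9 14 36 131 = true ∧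
    chk stN 515 bN3p bN3z bN3a 9 14 37 123 = true ∧
    chk stN 515 bN3p bN3z bN3a 9 14 38 126 = true ∧
    chk stN 515 bN3p bN3z bN3a 9 14 39 136 = true :=
  ⟨by decide +kernel,
    by decide +kernel,
    by decide +kernel,
    by decide +kernel,
    by decide +kernel,
    by decide +kernel,
    by decide +kernel,
    by decide +kernel,
    by decide +kernel,
    by decide +kernel,
    by decide +kernel,
    by decide +kernel,
    by decide +kernel,
    by decide +kernel,
    by decide +kernel,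
    by decide +kernel,
    by decide +kernel,
    by decide +kernel,
    by decide +kernel,
    by decide +kernel⟩

end Pool.Agent.H15.Cyc.Sv
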