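import Pool.Agent.H15.Cyc.Sv.Vec
import Pool.Agent.H15.Cyc.Sv.BaseN

set_option autoImplicit false

namespace Pool.Agent.H15.Cyc.Sv

theorem kN :
    base fN 0 4782969 [0, 2, 3, 6, 8] 4805 bN0p bN0z bN0a = true ∧
    base fN 4782969 14348907 [0, 2, 3, 6, 8] 3650 bN1p bN1z bN1a = true ∧
    base fN 14348907 43046721 [0, 2, 3, 6, 8] 1600 bN2p bN2z bN2a = true ∧
    base fN 43046721 1000000000000000000 [0, 2, 3, 6, 8] 515 bN3p bN3z bN3a = true :=
  ⟨by decide +kernel,
    by decide +kernel,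
    by decide +kernel,
    by decide +kernel⟩

end Pool.Agent.H15.Cyc.Sv
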