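set_option autoImplicit false

/-!
Verification of many integers at the same time: the values are the digits in base `2 ^ 72` of one
large number (lanes), and the map is applied to all lanes by a few operations on the large numbers.
-/

namespace Pool.Agent.H15.Cyc.Sv

/-- `1` in each of the `n` lanes -/
def ones (n : Nat) : Nat :=
  Nat.div (Nat.sub (Nat.pow 4722366482869645213696 n) 1) 4722366482869645213695

/-- the numbers of the list, one in each lane -/
noncomputable def pk (l : List Nat) : Nat := List.rec 0 (fun x _ ih => Nat.add x (Nat.mul 4722366482869645213696 ih)) l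

/-- the map `n / 2`, `(3 n + 1) / 2` in all lanes -/
def stP (one X : Nat) : Nat :=
  Nat.add (Nat.shiftRight (Nat.add X (Nat.land X one)) 1)
    (Nat.land X (Nat.mul (Nat.land X one) 4722366482869645213695))

/-- the map `n / 2`, `(3 n - 1) / 2` in all lanes -/
def stN (one X : Nat) : Nat :=
  Nat.add (Nat.shiftRight (Nat.sub X (Nat.land X one)) 1)
    (Nat.land X (Nat.mul (Nat.land X one) 4722366482869645213695))

/-- `n` steps, as long as all lanes are smaller than `2 ^ 71` -/
def steps (st : Nat → Nat) (H : Nat) (k : Nat → Bool) (n : Nat) : Nat → Bool :=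
  Nat.rec (fun X => k X)
    (fun _ ih X => cond (Nat.beq (Nat.land X H) 0) (ih (st X)) false) n

/-- rounds of eight steps; in each lane the start value `P` (increased by `w` when the iterate `X` is
smaller), its 16-th iterate `Z` and a further iterate `X`. -/
def run (st : Nat → Nat) (w H C F A : Nat) (R : Nat) : Nat → Nat → Nat → Bool :=
  Nat.rec (fun P _ _ => cond (Nat.beq (Nat.land P H) 0) (Nat.beq (Nat.land (Nat.add P F) H) H) false)
    (fun _ ih P Z X => cond (Nat.beq (Nat.land P H) 0)
      (steps st H (fun Y => cond (Nat.beq (Nat.land Y H) 0)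
        ((fun D => (fun M => (fun Z' => ih (Nat.add P (Nat.mul D w)) Z'
            (Nat.sub (Nat.add Y (Nat.land M Z')) (Nat.land M Y)))
          (Nat.add Z (Nat.land M A))) (Nat.mul D 4722366482869645213695))
         (Nat.shiftRight (Nat.land (Nat.sub (Nat.add P C) Y) H) 71)) false) 8 X)
      false) R

/-- the maps -/
def fP (n : Nat) : Nat := cond (Nat.beq (Nat.mod n 2) 0) (Nat.div n 2) (Nat.div (Nat.add (Nat.mul 3 n) 1) 2)

def fN (n : Nat) : Nat := cond (Nat.beq (Nat.mod n 2) 0) (Nat.div n 2) (Nat.div (Nat.sub (Nat.mul 3 n) 1) 2)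

/-- some iterate of `n` is smaller than `m` -/
def below (f : Nat → Nat) (m : Nat) (k : Nat) : Nat → Bool :=
  Nat.rec (fun _ => false) (fun _ ih n => cond (Nat.blt n m) true (ih (f n))) k

/-- `r` is zero or one, or smaller iterates exist -/
def sm (f : Nat → Nat) (r : Nat) : Bool :=
  cond (Nat.ble r 1) true (below f r 200 (f r))

/-- the classes `r + w i` whose first iterates do not become smaller, as a list of `(r, t, u)`;
the iterate is `t + u i`. Only those with `lo ≤ u < hi` are listed. -/
def leaves (f : Nat → Nat) (lo hi : Nat) (k : Nat) :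
    Nat → Nat → Nat → Nat → List (Nat × Nat × Nat) → List (Nat × Nat × Nat) :=
  Nat.rec
    (fun w r t u acc => cond (Nat.ble lo u) (cond (Nat.blt u hi)
      (cond (Nat.beq r 17) ((Nat.add r w, Nat.add t u, u) :: acc) ((r, t, u) :: acc)) acc) acc)
    (fun _ ih w r t u acc =>
      (fun g : Nat → Nat → List (Nat × Nat × Nat) → List (Nat × Nat × Nat) =>
        g r t (g (Nat.add r w) (Nat.add t u) acc))
      (fun r' t1 acc' => (fun t' u' =>
        cond (Nat.blt u' (Nat.mul 2 w))
          (cond (Nat.blt (Nat.add t' u') (Nat.add r' (Nat.mul 2 w)))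
            (cond (Nat.blt t' r') acc' (cond (sm f r') acc' (ih (Nat.mul 2 w) r' t' u' acc')))
            (ih (Nat.mul 2 w) r' t' u' acc'))
          (ih (Nat.mul 2 w) r' t' u' acc'))
        (f t1) (cond (Nat.beq (Nat.mod t1 2) 0) u (Nat.mul 3 u)))) k

/-- the lists of `leaves` for several starting classes modulo `9` -/
noncomputable def lanes (f : Nat → Nat) (lo hi : Nat) (roots : List Nat) : List (Nat × Nat × Nat) :=
  List.rec [] (fun c _ ih => leaves f lo hi 16 9 c c 9 ih) roots

/-- `m` blocks of lanes -/
def rep (n : Nat) (g : Nat → Nat) (m : Nat) : Nat :=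
  Nat.rec 0 (fun c ih => Nat.add ih (Nat.shiftLeft (g c) (Nat.mul 72 (Nat.mul n c)))) m

/-- the verification for the integers `r + 589824 i`, `B m d ≤ i < B m (d + 1)`, where the data of the
classes are given by `P0`, `Z0`, `A0`. -/
def chk (st : Nat → Nat → Nat) (n P0 Z0 A0 m B d R : Nat) : Bool :=
  (fun one P Z A => run (st one) 589824 (Nat.mul one 2361183241434822606848)
      (Nat.mul one 2361183241434822606847)
      (Nat.sub (Nat.mul one 2361183241434822606848) (Nat.add P (Nat.mul one (Nat.mul 589824 B))))
      A R P Z Z)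
    (ones (Nat.mul n m))
    (rep n (fun c => Nat.add P0 (Nat.mul (ones n) (Nat.mul 589824 (Nat.mul B (Nat.add (Nat.mul m d) c))))) m)
    (rep n (fun c => Nat.add Z0 (Nat.mul A0 (Nat.mul B (Nat.add (Nat.mul m d) c)))) m)
    (rep n (fun _ => A0) m)

/-- the data of the classes are correct -/
noncomputable def base (f : Nat → Nat) (lo hi : Nat) (roots : List Nat) (n p z a : Nat) : Bool :=
  (fun L : List (Nat × Nat × Nat) =>
    cond (Nat.beq (List.length L) n)
      (cond (Nat.beq (pk (List.map (fun q => q.1) L)) p)
        (cond (Nat.beq (pk (List.map (fun q => q.2.1) L)) z)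
          (Nat.beq (pk (List.map (fun q => q.2.2) L)) a) false) false) false)
  (lanes f lo hi roots)

end Pool.Agent.H15.Cyc.Sv
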