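import Mathlib
import Pool.Agent.H15.Cyc.Sv.Vec

set_option autoImplicit false

/-!
Correctness of the verification in lanes.
-/

namespace Pool.Agent.H15.Cyc.Sv

theorem pk_nil : pk [] = 0 := rfl

theorem pk_cons (x : ℕ) (l : List ℕ) : pk (x :: l) = x + 2 ^ 72 * pk l := by
  have : pk (x :: l) = x + 4722366482869645213696 * pk l := rfl
  rw [this]; norm_num

variable {α : Type}

theorem pkm_add (S : List α) (f g : α → ℕ) :
    pk (S.map f) + pk (S.map g) = pk (S.map fun s => f s + g s) := by
  induction S with
  | nil => rfl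
  | cons s S ih => simp only [List.map_cons, pk_cons]; rw [← ih]; ring

theorem pkm_mul (S : List α) (f : α → ℕ) (c : ℕ) :
    pk (S.map f) * c = pk (S.map fun s => f s * c) := by
  induction S with
  | nil => simp [pk_nil]
  | cons s S ih => simp only [List.map_cons, pk_cons]; rw [← ih]; ring

theorem pkm_le (S : List α) (f g : α → ℕ) (h : ∀ s ∈ S, g s ≤ f s) :
    pk (S.map g) ≤ pk (S.map f) := by
  induction S with
  | nil => rfl
  | cons s S ih =>
    simp only [List.map_cons, pk_cons]
    have h1 := ih fun s' hs' => h s' (List.mem_cons_of_mem _ hs')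
    have h2 := h s List.mem_cons_self
    have h3 : 2 ^ 72 * pk (S.map g) ≤ 2 ^ 72 * pk (S.map f) := Nat.mul_le_mul_left _ h1
    omega

theorem pkm_sub (S : List α) (f g : α → ℕ) (h : ∀ s ∈ S, g s ≤ f s) :
    pk (S.map f) - pk (S.map g) = pk (S.map fun s => f s - g s) := by
  have h1 := pkm_add S (fun s => f s - g s) g
  have h2 : (S.map fun s => f s - g s + g s) = S.map f := by
    apply List.map_congr_left
    intro s hs
    exact Nat.sub_add_cancel (h s hs)
  rw [h2] at h1
  omega

theorem land_split (n a b c d : ℕ) (ha : a < 2 ^ n) (hc : c < 2 ^ n) :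
    (a + 2 ^ n * b) &&& (c + 2 ^ n * d) = (a &&& c) + 2 ^ n * (b &&& d) := by
  apply Nat.eq_of_testBit_eq
  intro i
  have hac : (a &&& c) < 2 ^ n := lt_of_le_of_lt Nat.and_le_left ha
  rw [Nat.testBit_and, add_comm a, add_comm c, add_comm (a &&& c),
    Nat.testBit_two_pow_mul_add _ ha, Nat.testBit_two_pow_mul_add _ hc,
    Nat.testBit_two_pow_mul_add _ hac]
  split_ifs <;> simp [Nat.testBit_and]

theorem pkm_land (S : List α) (f g : α → ℕ) (hf : ∀ s ∈ S, f s < 2 ^ 72)
    (hg : ∀ s ∈ S, g s < 2 ^ 72) :
    Nat.land (pk (S.map f)) (pk (S.map g)) = pk (S.map fun s => Nat.land (f s) (g s)) := by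
  induction S with
  | nil => exact Nat.zero_and 0
  | cons s S ih =>
    simp only [List.map_cons, pk_cons]
    rw [← ih (fun s' hs' => hf s' (List.mem_cons_of_mem _ hs'))
      (fun s' hs' => hg s' (List.mem_cons_of_mem _ hs'))]
    exact land_split 72 _ _ _ _ (hf s List.mem_cons_self) (hg s List.mem_cons_self)

theorem pkm_shr (S : List α) (f : α → ℕ) (k : ℕ) (h : ∀ s ∈ S, 2 ^ k ∣ f s) :
    Nat.shiftRight (pk (S.map f)) k = pk (S.map fun s => f s / 2 ^ k) := by
  change pk (S.map f) >>> k = _
  rw [Nat.shiftRight_eq_div_pow]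
  have h1 : pk (S.map f) = pk (S.map fun s => f s / 2 ^ k) * 2 ^ k := by
    rw [pkm_mul]
    congr 1
    apply List.map_congr_left
    intro s hs
    exact (Nat.div_mul_cancel (h s hs)).symm
  rw [h1, Nat.mul_div_cancel _ (by positivity)]

theorem pkm_eq_zero (S : List α) (f : α → ℕ) (h : pk (S.map f) = 0) : ∀ s ∈ S, f s = 0 := by
  induction S with
  | nil => intro s hs; simp at hs
  | cons s S ih =>
    simp only [List.map_cons, pk_cons] at h
    intro s' hs'
    rcases List.mem_cons.1 hs' with h1 | h1
    · rw [h1]; omega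
    · exact ih (by omega) s' h1

theorem pkm_inj (S : List α) (f g : α → ℕ) (hf : ∀ s ∈ S, f s < 2 ^ 72)
    (hg : ∀ s ∈ S, g s < 2 ^ 72) (h : pk (S.map f) = pk (S.map g)) : ∀ s ∈ S, f s = g s := by
  induction S with
  | nil => intro s hs; simp at hs
  | cons s S ih =>
    simp only [List.map_cons, pk_cons] at h
    have h1 := hf s List.mem_cons_self
    have h2 := hg s List.mem_cons_self
    intro s' hs'
    rcases List.mem_cons.1 hs' with h3 | h3
    · rw [h3]; omega
    · exact ih (fun s' hs' => hf s' (List.mem_cons_of_mem _ hs'))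
        (fun s' hs' => hg s' (List.mem_cons_of_mem _ hs')) (by omega) s' h3

theorem pk_append (l₁ l₂ : List ℕ) : pk (l₁ ++ l₂) = pk l₁ + 2 ^ (72 * l₁.length) * pk l₂ := by
  induction l₁ with
  | nil => simp [pk_nil]
  | cons x l ih =>
    rw [List.cons_append, pk_cons, pk_cons, ih, List.length_cons]
    rw [show 72 * (l.length + 1) = 72 + 72 * l.length by ring, pow_add]
    ring

theorem ones_eq (S : List α) : ones S.length = pk (S.map fun _ => 1) := by
  have h : ∀ n : ℕ, (2 ^ 72) ^ n - 1 = (2 ^ 72 - 1) * pk (List.replicate n 1) := by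
    intro n
    induction n with
    | zero => simp [pk_nil]
    | succ n ih =>
      rw [List.replicate_succ, pk_cons, pow_succ]
      have h1 : 1 ≤ (2 ^ 72) ^ n := Nat.one_le_pow _ _ (by norm_num)
      omega
  have h2 : S.map (fun _ => 1) = List.replicate S.length 1 := List.map_const' ..
  rw [h2]
  unfold ones
  change ((4722366482869645213696 ^ S.length) - 1) / 4722366482869645213695 = _
  have h3 := h S.length
  norm_num at h3
  rw [h3, Nat.mul_div_cancel_left _ (by norm_num)]

/-- what one needs of the two maps -/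
structure Stp (st : ℕ → ℕ → ℕ) (f : ℕ → ℕ) : Prop where
  step : ∀ {β : Type} (S : List β) (x : β → ℕ), (∀ s ∈ S, x s < 2 ^ 71) →
    st (pk (S.map fun _ => 1)) (pk (S.map x)) = pk (S.map fun s => f (x s))
  bound : ∀ x, f x < 2 * x + 1

theorem fP_eq (n : ℕ) : fP n = if n % 2 = 0 then n / 2 else (3 * n + 1) / 2 := by
  unfold fP
  rcases Nat.mod_two_eq_zero_or_one n with h | h
  · have e : Nat.beq (Nat.mod n 2) 0 = true := by
      change Nat.beq (n % 2) 0 = true
      rw [h]; rfl
    rw [e, if_pos h]; rfl
  · have e : Nat.beq (Nat.mod n 2) 0 = false := by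
      change Nat.beq (n % 2) 0 = false
      rw [h]; rfl
    rw [e, if_neg (by omega)]; rfl

theorem fN_eq (n : ℕ) : fN n = if n % 2 = 0 then n / 2 else (3 * n - 1) / 2 := by
  unfold fN
  rcases Nat.mod_two_eq_zero_or_one n with h | h
  · have e : Nat.beq (Nat.mod n 2) 0 = true := by
      change Nat.beq (n % 2) 0 = true
      rw [h]; rfl
    rw [e, if_pos h]; rfl
  · have e : Nat.beq (Nat.mod n 2) 0 = false := by
      change Nat.beq (n % 2) 0 = false
      rw [h]; rfl
    rw [e, if_neg (by omega)]; rfl

theorem land_mask (x : ℕ) (hx : x < 2 ^ 72) : Nat.land x 4722366482869645213695 = x := by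
  change x &&& 4722366482869645213695 = x
  rw [show (4722366482869645213695 : ℕ) = 2 ^ 72 - 1 by norm_num, Nat.and_two_pow_sub_one_eq_mod]
  exact Nat.mod_eq_of_lt hx

theorem land_one (x : ℕ) : Nat.land x 1 = x % 2 := Nat.and_one_is_mod x

theorem stP_spec : Stp stP fP where
  step := by
    intro β S x hx
    unfold stP
    have hx' : ∀ s ∈ S, x s < 2 ^ 72 := fun s hs => (hx s hs).trans (by norm_num)
    have e1 : Nat.land (pk (S.map x)) (pk (S.map fun _ => 1)) = pk (S.map fun s => x s % 2) := by
      rw [pkm_land S x _ hx' (fun _ _ => by norm_num)]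
      congr 1
      apply List.map_congr_left
      intro s _
      exact land_one (x s)
    rw [e1]
    change (Nat.shiftRight (pk (S.map x) + pk (S.map fun s => x s % 2)) 1) +
      (Nat.land (pk (S.map x)) ((pk (S.map fun s => x s % 2)) * 4722366482869645213695)) = _
    rw [pkm_add, pkm_mul, pkm_shr, pkm_land, pkm_add]
    · congr 1
      apply List.map_congr_left
      intro s hs
      rw [fP_eq]
      rcases Nat.mod_two_eq_zero_or_one (x s) with h | h
      · rw [h, if_pos rfl, zero_mul, add_zero]
        have : Nat.land (x s) 0 = 0 := Nat.and_zero _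
        rw [this]; norm_num
      · rw [h, one_mul, land_mask _ (hx' s hs), if_neg (by norm_num)]
        omega
    · exact hx'
    · intro s _
      have := Nat.mod_lt (x s) (show 0 < 2 by norm_num)
      nlinarith
    · intro s _
      rw [pow_one]
      omega
  bound := by
    intro x
    rw [fP_eq]
    split_ifs <;> omega

theorem stN_spec : Stp stN fN where
  step := by
    intro β S x hx
    unfold stN
    have hx' : ∀ s ∈ S, x s < 2 ^ 72 := fun s hs => (hx s hs).trans (by norm_num)
    have e1 : Nat.land (pk (S.map x)) (pk (S.map fun _ => 1)) = pk (S.map fun s => x s % 2) := by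
      rw [pkm_land S x _ hx' (fun _ _ => by norm_num)]
      congr 1
      apply List.map_congr_left
      intro s _
      exact land_one (x s)
    rw [e1]
    change (Nat.shiftRight (pk (S.map x) - pk (S.map fun s => x s % 2)) 1) +
      (Nat.land (pk (S.map x)) ((pk (S.map fun s => x s % 2)) * 4722366482869645213695)) = _
    rw [pkm_sub, pkm_mul, pkm_shr, pkm_land, pkm_add]
    · congr 1
      apply List.map_congr_left
      intro s hs
      rw [fN_eq]
      rcases Nat.mod_two_eq_zero_or_one (x s) with h | h
      · rw [h, if_pos rfl, zero_mul, Nat.sub_zero]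
        have : Nat.land (x s) 0 = 0 := Nat.and_zero _
        rw [this]; norm_num
      · rw [h, one_mul, land_mask _ (hx' s hs), if_neg (by norm_num)]
        omega
    · exact hx'
    · intro s _
      have := Nat.mod_lt (x s) (show 0 < 2 by norm_num)
      nlinarith
    · intro s _
      rw [pow_one]
      omega
    · intro s _
      omega
  bound := by
    intro x
    rw [fN_eq]
    split_ifs <;> omega

end Pool.Agent.H15.Cyc.Sv
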