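import Mathlib
import Pool.Agent.H15.Cyc.Sv.Spec

set_option autoImplicit false

/-!
Correctness of the verification in lanes: the loop.
-/

namespace Pool.Agent.H15.Cyc.Sv

variable {α : Type}

theorem cond_true {b c : Bool} (h : cond b c false = true) : b = true ∧ c = true := by
  cases b
  · simp at h
  · exact ⟨rfl, h⟩

theorem beq_true {m n : ℕ} (h : Nat.beq m n = true) : m = n := Nat.eq_of_beq_eq_true h

theorem land_top (x : ℕ) (hx : x < 2 ^ 72) (h : Nat.land x (2 ^ 71) = 0) : x < 2 ^ 71 := by
  by_contra hcon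
  push Not at hcon
  have h1 : x.testBit 71 = true := by
    rw [Nat.testBit_eq_decide_div_mod_eq]
    simp
    omega
  have h2 : (x &&& 2 ^ 71).testBit 71 = true := by
    rw [Nat.testBit_and, h1, Nat.testBit_two_pow_self]; rfl
  have h3 : x &&& 2 ^ 71 = 0 := h
  rw [h3] at h2
  simp at h2

theorem land_top_ge (x : ℕ) (hx : x < 2 ^ 72) (hx' : 2 ^ 71 ≤ x) : Nat.land x (2 ^ 71) = 2 ^ 71 := by
  obtain ⟨y, hy⟩ : ∃ y, x = 2 ^ 71 + y := ⟨x - 2 ^ 71, by omega⟩
  have hy2 : y < 2 ^ 71 := by omega
  change x &&& 2 ^ 71 = 2 ^ 71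
  have h := land_split 71 y 1 0 1 hy2 (by norm_num)
  have e1 : y + 2 ^ 71 * 1 = x := by omega
  have e2 : 0 + 2 ^ 71 * 1 = 2 ^ 71 := by norm_num
  rw [e1, e2] at h
  rw [h]
  norm_num

theorem land_top_lt (x : ℕ) (hx' : x < 2 ^ 71) : Nat.land x (2 ^ 71) = 0 := by
  change x &&& 2 ^ 71 = 0
  have h := land_split 71 x 0 0 1 hx' (by norm_num)
  have e1 : x + 2 ^ 71 * 0 = x := by omega
  have e2 : 0 + 2 ^ 71 * 1 = 2 ^ 71 := by norm_num
  rw [e1, e2] at h
  rw [h]
  norm_num

theorem check (S : List α) (x : α → ℕ) (hx : ∀ s ∈ S, x s < 2 ^ 72)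
    (h : Nat.land (pk (S.map x)) (pk (S.map fun _ => 2 ^ 71)) = 0) : ∀ s ∈ S, x s < 2 ^ 71 := by
  rw [pkm_land S x _ hx (fun _ _ => by norm_num)] at h
  intro s hs
  exact land_top _ (hx s hs) (pkm_eq_zero S _ h s hs)

theorem steps_spec {st : ℕ → ℕ → ℕ} {f : ℕ → ℕ} (hst : Stp st f) (S : List α) (k : ℕ → Bool) (n : ℕ) :
    ∀ x : α → ℕ, (∀ s ∈ S, x s < 2 ^ 72) →
      steps (st (pk (S.map fun _ => 1))) (pk (S.map fun _ => 2 ^ 71)) k n (pk (S.map x)) = true →
      (∀ s ∈ S, f^[n] (x s) < 2 ^ 72) ∧ k (pk (S.map fun s => f^[n] (x s))) = true ∧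
        (1 ≤ n → ∀ s ∈ S, x s < 2 ^ 71) := by
  induction n with
  | zero =>
    intro x hx h
    exact ⟨hx, h, fun h => by omega⟩
  | succ n ih =>
    intro x hx h
    have h1 : cond (Nat.beq (Nat.land (pk (S.map x)) (pk (S.map fun _ => 2 ^ 71))) 0)
      (steps (st (pk (S.map fun _ => 1))) (pk (S.map fun _ => 2 ^ 71)) k n
        (st (pk (S.map fun _ => 1)) (pk (S.map x)))) false = true := h
    obtain ⟨h2, h3⟩ := cond_true h1
    have hx63 := check S x hx (beq_true h2)
    rw [hst.step S x hx63] at h3
    obtain ⟨h4, h5, -⟩ := ih (fun s => f (x s)) (fun s hs => by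
      have h1 := hst.bound (x s)
      have h2 := hx63 s hs
      omega) h3
    exact ⟨h4, h5, fun _ => hx63⟩

/-- the classes of a lane -/
def LH (f : ℕ → ℕ) (w p z x a : ℕ) : Prop :=
  (∀ i, f^[16] (p + w * i) = z + a * i) ∧ ∃ j, f^[j] p = x

theorem run_spec {st : ℕ → ℕ → ℕ} {f : ℕ → ℕ} (hst : Stp st f) (w : ℕ) (hw : w < 2 ^ 62) (S : List α)
    (φ a : α → ℕ) (hφ : ∀ s ∈ S, φ s ≤ 2 ^ 71) (ha : ∀ s ∈ S, a s < 2 ^ 71) (R : ℕ) :
    ∀ p z x : α → ℕ, (∀ s ∈ S, p s < 2 ^ 72) → (∀ s ∈ S, x s < 2 ^ 72) →
      (∀ s ∈ S, z s < 2 ^ 71 ∨ z s = x s) →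
      run (st (pk (S.map fun _ => 1))) w (pk (S.map fun _ => 2 ^ 71)) (pk (S.map fun _ => 2 ^ 71 - 1))
        (pk (S.map φ)) (pk (S.map a)) R (pk (S.map p)) (pk (S.map z)) (pk (S.map x)) = true →
      ∀ s ∈ S, LH f w (p s) (z s) (x s) (a s) →
        ∃ n, 2 ^ 71 ≤ p s + w * n + φ s ∧ ∀ i < n, ∃ j, f^[j] (p s + w * i) < p s + w * i := by
  induction R with
  | zero =>
    intro p z x hp _ _ h s hs _
    have h1 : cond (Nat.beq (Nat.land (pk (S.map p)) (pk (S.map fun _ => 2 ^ 71))) 0)
      (Nat.beq (Nat.land (pk (S.map p) + pk (S.map φ)) (pk (S.map fun _ => 2 ^ 71)))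
        (pk (S.map fun _ => 2 ^ 71))) false = true := h
    obtain ⟨h2, h3⟩ := cond_true h1
    have hp63 := check S p hp (beq_true h2)
    have h4 := beq_true h3
    have hb : ∀ s ∈ S, p s + φ s < 2 ^ 72 := fun s hs => by
      have := hp63 s hs
      have := hφ s hs
      omega
    rw [pkm_add, pkm_land S _ _ hb (fun _ _ => by norm_num)] at h4
    have h5 := pkm_inj S _ _ (fun s hs => by
      have : Nat.land (p s + φ s) (2 ^ 71) ≤ p s + φ s := Nat.and_le_left
      have := hb s hs
      omega) (fun _ _ => by norm_num) h4 s hs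
    refine ⟨0, ?_, fun i hi => by omega⟩
    by_contra hcon
    push Not at hcon
    rw [land_top_lt _ (by omega)] at h5
    norm_num at h5
  | succ R ih =>
    intro p z x hp hx hz h s hs hL
    have h1 : cond (Nat.beq (Nat.land (pk (S.map p)) (pk (S.map fun _ => 2 ^ 71))) 0)
      (steps (st (pk (S.map fun _ => 1))) (pk (S.map fun _ => 2 ^ 71)) (fun Y =>
        cond (Nat.beq (Nat.land Y (pk (S.map fun _ => 2 ^ 71))) 0)
          (run (st (pk (S.map fun _ => 1))) w (pk (S.map fun _ => 2 ^ 71))
            (pk (S.map fun _ => 2 ^ 71 - 1)) (pk (S.map φ)) (pk (S.map a)) R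
            (pk (S.map p) + (Nat.shiftRight (Nat.land (pk (S.map p) + pk (S.map fun _ => 2 ^ 71 - 1) - Y)
              (pk (S.map fun _ => 2 ^ 71))) 71) * w)
            (pk (S.map z) + Nat.land ((Nat.shiftRight (Nat.land (pk (S.map p) +
              pk (S.map fun _ => 2 ^ 71 - 1) - Y) (pk (S.map fun _ => 2 ^ 71))) 71) *
              4722366482869645213695) (pk (S.map a)))
            (Y + Nat.land ((Nat.shiftRight (Nat.land (pk (S.map p) +
              pk (S.map fun _ => 2 ^ 71 - 1) - Y) (pk (S.map fun _ => 2 ^ 71))) 71) *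
              4722366482869645213695) (pk (S.map z) + Nat.land ((Nat.shiftRight (Nat.land (pk (S.map p) +
              pk (S.map fun _ => 2 ^ 71 - 1) - Y) (pk (S.map fun _ => 2 ^ 71))) 71) *
              4722366482869645213695) (pk (S.map a))) -
              Nat.land ((Nat.shiftRight (Nat.land (pk (S.map p) +
              pk (S.map fun _ => 2 ^ 71 - 1) - Y) (pk (S.map fun _ => 2 ^ 71))) 71) *
              4722366482869645213695) Y)) false) 8 (pk (S.map x))) false = true := h
    obtain ⟨h2, h3⟩ := cond_true h1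
    have hp63 := check S p hp (beq_true h2)
    obtain ⟨hy64, h4, hx63⟩ := steps_spec hst S _ 8 x hx h3
    have hx63 := hx63 (by norm_num)
    obtain ⟨h5, h6⟩ := cond_true h4
    have hy63 := check S _ hy64 (beq_true h5)
    clear h h1 h2 h3 h4 h5
    set y : α → ℕ := fun s => f^[8] (x s) with hy
    have hz63 : ∀ s ∈ S, z s < 2 ^ 71 := fun s hs => by
      rcases hz s hs with h | h
      · exact h
      · rw [h]; exact hx63 s hs
    -- the mask
    set d : α → ℕ := fun s => if y s < p s then 1 else 0 with hd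
    have eD : Nat.shiftRight (Nat.land (pk (S.map p) + pk (S.map fun _ => 2 ^ 71 - 1) - pk (S.map y))
        (pk (S.map fun _ => 2 ^ 71))) 71 = pk (S.map d) := by
      rw [pkm_add, pkm_sub, pkm_land, pkm_shr]
      · congr 1
        apply List.map_congr_left
        intro s hs
        have h1 := hp63 s hs
        have h2 : y s < 2 ^ 71 := hy63 s hs
        rw [hd]
        simp only
        split_ifs with h3
        · rw [land_top_ge _ (by omega) (by omega)]
          norm_num
        · rw [land_top_lt _ (by omega)]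
          norm_num
      · intro s hs
        have h1 := hp63 s hs
        have h2 : y s < 2 ^ 71 := hy63 s hs
        by_cases h3 : y s < p s
        · rw [land_top_ge _ (by omega) (by omega)]
        · rw [land_top_lt _ (by omega)]
          exact dvd_zero _
      · intro s hs
        have h1 := hp63 s hs
        have h2 : y s < 2 ^ 71 := hy63 s hs
        omega
      · intro s hs
        norm_num
      · intro s hs
        have h2 : y s < 2 ^ 71 := hy63 s hs
        omega
    have hmask : ∀ (s : α) (v : ℕ), v < 2 ^ 72 → Nat.land (d s * 4722366482869645213695) v = d s * v := by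
      intro s v hv
      rw [hd]
      simp only
      split_ifs
      · rw [one_mul, one_mul]
        change 4722366482869645213695 &&& v = v
        rw [Nat.land_comm]
        exact land_mask v hv
      · rw [zero_mul, zero_mul]
        exact Nat.zero_and v
    have hd1 : ∀ s, d s ≤ 1 := fun s => by rw [hd]; simp only; split_ifs <;> omega
    have eM : ∀ v : α → ℕ, (∀ s ∈ S, v s < 2 ^ 72) →
        Nat.land (pk (S.map d) * 4722366482869645213695) (pk (S.map v)) = pk (S.map fun s => d s * v s) := by
      intro v hv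
      rw [pkm_mul, pkm_land S _ _ (fun s _ => by have := hd1 s; nlinarith) hv]
      congr 1
      apply List.map_congr_left
      intro s hs
      exact hmask s (v s) (hv s hs)
    have hy' : pk (S.map fun s => f^[8] (x s)) = pk (S.map y) := rfl
    rw [hy', eD, eM a (fun s hs => by have := ha s hs; omega)] at h6
    rw [pkm_mul, pkm_add, pkm_add] at h6
    have hz' : ∀ s ∈ S, z s + d s * a s < 2 ^ 72 := fun s hs => by
      have h1 := hz63 s hs
      have h2 := ha s hs
      have h3 := hd1 s
      nlinarith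
    rw [eM _ hz', eM y (fun s hs => hy64 s hs), pkm_add, pkm_sub] at h6
    swap
    · intro s hs
      have h3 := hd1 s
      by_cases h : y s < p s
      · have e : d s = 1 := by rw [hd]; simp only; rw [if_pos h]
        rw [e]; omega
      · have e : d s = 0 := by rw [hd]; simp only; rw [if_neg h]
        rw [e]; omega
    have h7 := ih (fun s => p s + d s * w) (fun s => z s + d s * a s)
      (fun s => y s + d s * (z s + d s * a s) - d s * y s) (fun s hs => by
        have h1 := hp63 s hs
        have h3 := hd1 s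
        nlinarith) (fun s hs => by
        have h1 : y s < 2 ^ 71 := hy63 s hs
        have h2 := hz' s hs
        by_cases h : y s < p s
        · have e : d s = 1 := by rw [hd]; simp only; rw [if_pos h]
          rw [e] at h2 ⊢; omega
        · have e : d s = 0 := by rw [hd]; simp only; rw [if_neg h]
          rw [e]; omega) (fun s hs => by
        by_cases h : y s < p s
        · have e : d s = 1 := by rw [hd]; simp only; rw [if_pos h]
          right
          rw [e]; omega
        · have e : d s = 0 := by rw [hd]; simp only; rw [if_neg h]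
          left
          have := hz63 s hs
          rw [e]; omega) h6 s hs
    obtain ⟨hL1, j, hj⟩ := hL
    have hjy : f^[j + 8] (p s) = y s := by
      rw [add_comm, Function.iterate_add_apply, hj]
    by_cases h : y s < p s
    · have e : d s = 1 := by rw [hd]; simp only; rw [if_pos h]
      rw [e] at h7
      simp only [one_mul] at h7
      have e2 : y s + (z s + a s) - y s = z s + a s := by omega
      rw [e2] at h7
      obtain ⟨n, hn1, hn2⟩ := h7 ⟨fun i => by
          have := hL1 (i + 1)
          rw [show p s + w + w * i = p s + w * (i + 1) by ring, this]; ring, 16, by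
          have := hL1 1
          rw [mul_one, mul_one] at this
          exact this⟩
      refine ⟨n + 1, ?_, ?_⟩
      · have : p s + w * (n + 1) = p s + w + w * n := by ring
        rw [this]; exact hn1
      · intro i hi
        rcases Nat.eq_zero_or_pos i with h0 | h0
        · rw [h0, mul_zero, add_zero]
          exact ⟨j + 8, by rw [hjy]; exact h⟩
        · have := hn2 (i - 1) (by omega)
          have e3 : p s + w + w * (i - 1) = p s + w * i := by
            obtain ⟨i', rfl⟩ : ∃ i', i = i' + 1 := ⟨i - 1, by omega⟩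
            rw [Nat.add_sub_cancel]; ring
          rw [e3] at this
          exact this
    · have e : d s = 0 := by rw [hd]; simp only; rw [if_neg h]
      rw [e] at h7
      simp only [zero_mul, add_zero, Nat.sub_zero] at h7
      exact h7 ⟨hL1, j + 8, hjy⟩

end Pool.Agent.H15.Cyc.Sv
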