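import Mathlib
import Pool.Agent.H15.Cyc.Sv.Run

set_option autoImplicit false

/-!
Correctness of the verification in lanes: blocks and classes.
-/

namespace Pool.Agent.H15.Cyc.Sv

theorem iter_bound {st : ℕ → ℕ → ℕ} {f : ℕ → ℕ} (hst : Stp st f) (n x : ℕ) : f^[n] x ≤ 2 ^ n * x := by
  induction n with
  | zero => simp
  | succ n ih =>
    rw [Function.iterate_succ_apply']
    have h1 := hst.bound (f^[n] x)
    rw [pow_succ]
    nlinarith

/-- the lanes: blocks of classes -/
def lns (L : List (ℕ × ℕ × ℕ)) (m : ℕ) : List (ℕ × ℕ × ℕ × ℕ) :=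
  (List.range m).flatMap fun c => L.map fun q => (c, q)

theorem lns_zero (L : List (ℕ × ℕ × ℕ)) : lns L 0 = [] := rfl

theorem lns_succ (L : List (ℕ × ℕ × ℕ)) (m : ℕ) :
    lns L (m + 1) = lns L m ++ L.map fun q => (m, q) := by
  unfold lns
  rw [List.range_succ, List.flatMap_append]
  simp

theorem lns_length (L : List (ℕ × ℕ × ℕ)) (m : ℕ) : (lns L m).length = L.length * m := by
  induction m with
  | zero => rfl
  | succ m ih => rw [lns_succ, List.length_append, ih, List.length_map]; ring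

theorem mem_lns {L : List (ℕ × ℕ × ℕ)} {m c : ℕ} {q : ℕ × ℕ × ℕ} (hc : c < m) (hq : q ∈ L) :
    (c, q) ∈ lns L m := by
  unfold lns
  rw [List.mem_flatMap]
  exact ⟨c, List.mem_range.2 hc, List.mem_map.2 ⟨q, hq, rfl⟩⟩

theorem of_mem_lns {L : List (ℕ × ℕ × ℕ)} {m : ℕ} {s : ℕ × ℕ × ℕ × ℕ} (h : s ∈ lns L m) :
    s.1 < m ∧ s.2 ∈ L := by
  unfold lns at h
  rw [List.mem_flatMap] at h
  obtain ⟨c, hc, h2⟩ := h
  obtain ⟨q, hq, rfl⟩ := List.mem_map.1 h2
  exact ⟨List.mem_range.1 hc, hq⟩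

theorem rep_spec (L : List (ℕ × ℕ × ℕ)) (g : ℕ → ℕ) (v : ℕ × ℕ × ℕ × ℕ → ℕ)
    (hg : ∀ c, g c = pk (L.map fun q => v (c, q))) (m : ℕ) :
    rep L.length g m = pk ((lns L m).map v) := by
  induction m with
  | zero => rfl
  | succ m ih =>
    have h1 : rep L.length g (m + 1) =
      rep L.length g m + Nat.shiftLeft (g m) (72 * (L.length * m)) := rfl
    rw [h1, ih, lns_succ, List.map_append, pk_append, List.length_map, lns_length, hg, List.map_map]
    have h2 : ∀ a b : ℕ, Nat.shiftLeft a b = a * 2 ^ b := fun a b => Nat.shiftLeft_eq a b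
    rw [h2]
    have : ((v ∘ fun q => (m, q)) : ℕ × ℕ × ℕ → ℕ) = fun q => v (m, q) := rfl
    rw [this]
    ring

/-- **Correctness of `chk`.** -/
theorem chk_spec {st : ℕ → ℕ → ℕ} {f : ℕ → ℕ} (hst : Stp st f) (L : List (ℕ × ℕ × ℕ))
    (n P0 Z0 A0 m B d R : ℕ) (hn : L.length = n) (hP : pk (L.map fun q => q.1) = P0)
    (hZ : pk (L.map fun q => q.2.1) = Z0) (hA : pk (L.map fun q => q.2.2) = A0)
    (hL : ∀ q ∈ L, q.1 < 2 ^ 22 ∧ ∀ i, f^[16] (q.1 + 589824 * i) = q.2.1 + q.2.2 * i)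
    (hb : B * (m * (d + 1)) ≤ 2 ^ 15) (h : chk st n P0 Z0 A0 m B d R = true) :
    ∀ q ∈ L, ∀ i, B * (m * d) ≤ i → i < B * (m * (d + 1)) →
      ∃ j, f^[j] (q.1 + 589824 * i) < q.1 + 589824 * i := by
  have hb' : ∀ c < m, B * (m * d + c) + B ≤ 2 ^ 15 := by
    intro c hc
    refine le_trans ?_ hb
    have : m * d + c + 1 ≤ m * (d + 1) := by
      rw [Nat.mul_succ]; omega
    calc B * (m * d + c) + B = B * (m * d + c + 1) := by ring
      _ ≤ _ := Nat.mul_le_mul_left _ this
  have hq : ∀ q ∈ L, q.1 < 2 ^ 22 ∧ q.2.1 < 2 ^ 38 ∧ q.2.2 < 2 ^ 39 := by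
    intro q hq
    obtain ⟨h1, h2⟩ := hL q hq
    have h3 := h2 0
    have h4 := h2 1
    have h5 := iter_bound hst 16 (q.1 + 589824 * 0)
    have h6 := iter_bound hst 16 (q.1 + 589824 * 1)
    rw [h3] at h5
    rw [h4] at h6
    refine ⟨h1, by omega, by omega⟩
  set p : ℕ × ℕ × ℕ × ℕ → ℕ := fun s => s.2.1 + 1 * (589824 * (B * (m * d + s.1))) with hp
  set z : ℕ × ℕ × ℕ × ℕ → ℕ := fun s => s.2.2.1 + s.2.2.2 * (B * (m * d + s.1)) with hz
  set a : ℕ × ℕ × ℕ × ℕ → ℕ := fun s => s.2.2.2 with ha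
  have ones1 : ones n = pk (L.map fun _ => 1) := by rw [← hn]; exact ones_eq L
  have eP : rep n (fun c => Nat.add P0 (Nat.mul (ones n)
      (Nat.mul 589824 (Nat.mul B (Nat.add (Nat.mul m d) c))))) m = pk ((lns L m).map p) := by
    rw [← hn]
    apply rep_spec
    intro c
    change P0 + ones L.length * (589824 * (B * (m * d + c))) = _
    rw [hn, ones1, ← hP, pkm_mul, pkm_add]
  have eZ : rep n (fun c => Nat.add Z0 (Nat.mul A0 (Nat.mul B (Nat.add (Nat.mul m d) c)))) m =
      pk ((lns L m).map z) := by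
    rw [← hn]
    apply rep_spec
    intro c
    change Z0 + A0 * (B * (m * d + c)) = _
    rw [← hZ, ← hA, pkm_mul, pkm_add]
  have eA : rep n (fun _ => A0) m = pk ((lns L m).map a) := by
    rw [← hn]
    apply rep_spec
    intro c
    rw [← hA]
  have eO : ones (Nat.mul n m) = pk ((lns L m).map fun _ => 1) := by
    have : Nat.mul n m = (lns L m).length := by rw [lns_length, hn]; rfl
    rw [this]
    exact ones_eq _
  have e1 : Nat.mul (pk ((lns L m).map fun _ => 1)) 2361183241434822606848 =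
      pk ((lns L m).map fun _ => 2 ^ 71) := by
    change pk ((lns L m).map fun _ => 1) * 2361183241434822606848 = _
    rw [pkm_mul]; norm_num
  have e2 : Nat.mul (pk ((lns L m).map fun _ => 1)) 2361183241434822606847 =
      pk ((lns L m).map fun _ => 2 ^ 71 - 1) := by
    change pk ((lns L m).map fun _ => 1) * 2361183241434822606847 = _
    rw [pkm_mul]; norm_num
  have hpb : ∀ s ∈ lns L m, p s + 589824 * B < 2 ^ 71 := by
    intro s hs
    obtain ⟨h1, h2⟩ := of_mem_lns hs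
    obtain ⟨h3, h4, h5⟩ := hq _ h2
    have h6 := hb' _ h1
    rw [hp]
    simp only
    omega
  have e3 : Nat.sub (pk ((lns L m).map fun _ => 2 ^ 71)) (Nat.add (pk ((lns L m).map p))
      (Nat.mul (pk ((lns L m).map fun _ => 1)) (Nat.mul 589824 B))) =
      pk ((lns L m).map fun s => 2 ^ 71 - (p s + 1 * (589824 * B))) := by
    change pk ((lns L m).map fun _ => 2 ^ 71) - (pk ((lns L m).map p) +
      pk ((lns L m).map fun _ => 1) * (589824 * B)) = _
    rw [pkm_mul, pkm_add, pkm_sub]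
    intro s hs
    have := hpb s hs
    omega
  have h1 : run (st (ones (Nat.mul n m))) 589824 (Nat.mul (ones (Nat.mul n m)) 2361183241434822606848)
      (Nat.mul (ones (Nat.mul n m)) 2361183241434822606847)
      (Nat.sub (Nat.mul (ones (Nat.mul n m)) 2361183241434822606848)
        (Nat.add (rep n (fun c => Nat.add P0 (Nat.mul (ones n)
          (Nat.mul 589824 (Nat.mul B (Nat.add (Nat.mul m d) c))))) m)
          (Nat.mul (ones (Nat.mul n m)) (Nat.mul 589824 B))))
      (rep n (fun _ => A0) m) R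
      (rep n (fun c => Nat.add P0 (Nat.mul (ones n)
        (Nat.mul 589824 (Nat.mul B (Nat.add (Nat.mul m d) c))))) m)
      (rep n (fun c => Nat.add Z0 (Nat.mul A0 (Nat.mul B (Nat.add (Nat.mul m d) c)))) m)
      (rep n (fun c => Nat.add Z0 (Nat.mul A0 (Nat.mul B (Nat.add (Nat.mul m d) c)))) m) = true := h
  rw [eP, eZ, eA, eO, e1, e2, e3] at h1
  have hzb : ∀ s ∈ lns L m, z s < 2 ^ 71 := by
    intro s hs
    obtain ⟨h1, h2⟩ := of_mem_lns hs
    obtain ⟨h3, h4, h5⟩ := hq _ h2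
    have h6 := hb' _ h1
    rw [hz]
    simp only
    have h7 : s.2.2.2 * (B * (m * d + s.1)) ≤ 2 ^ 39 * 2 ^ 15 :=
      Nat.mul_le_mul h5.le (by omega)
    omega
  have h2 := run_spec hst 589824 (by norm_num) (lns L m) _ a (fun s _ => Nat.sub_le _ _)
    (fun s hs => by
      obtain ⟨h3, h4, h5⟩ := hq _ (of_mem_lns hs).2
      change s.2.2.2 < 2 ^ 71
      omega) R p z z (fun s hs => by have := hpb s hs; omega)
    (fun s hs => by have := hzb s hs; omega) (fun s _ => Or.inr rfl) h1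
  intro q hqL i hi1 hi2
  -- the block
  have hB : 0 < B := by
    rcases Nat.eq_zero_or_pos B with h0 | h0
    · rw [h0] at hi2; simp at hi2
    · exact h0
  obtain ⟨e, he1, he2⟩ : ∃ e, B * e ≤ i ∧ i < B * (e + 1) :=
    ⟨i / B, Nat.mul_div_le i B, by
      have := Nat.lt_mul_div_succ i hB
      simpa using this⟩
  have he3 : m * d ≤ e := by
    by_contra hcon
    push Not at hcon
    have : B * (e + 1) ≤ B * (m * d) := Nat.mul_le_mul_left _ hcon
    omega
  have he4 : e < m * (d + 1) := by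
    by_contra hcon
    push Not at hcon
    have : B * (m * (d + 1)) ≤ B * e := Nat.mul_le_mul_left _ hcon
    omega
  obtain ⟨c, rfl⟩ : ∃ c, e = m * d + c := ⟨e - m * d, by omega⟩
  have hc : c < m := by
    rw [Nat.mul_succ] at he4
    omega
  have hs := mem_lns (m := m) hc hqL
  obtain ⟨hq1, hq2⟩ := hL q hqL
  obtain ⟨k, hk1, hk2⟩ := h2 (c, q) hs ⟨fun i => by
    have h3 := hq2 (B * (m * d + c) + i)
    have e1 : p (c, q) + 589824 * i = q.1 + 589824 * (B * (m * d + c) + i) := by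
      rw [hp]; simp only; ring
    have e2 : z (c, q) + a (c, q) * i = q.2.1 + q.2.2 * (B * (m * d + c) + i) := by
      rw [hz, ha]; simp only; ring
    rw [e1, e2]; exact h3, 16, by
    have h3 := hq2 (B * (m * d + c))
    have e1 : p (c, q) = q.1 + 589824 * (B * (m * d + c)) := by
      rw [hp]; simp only; ring
    rw [e1, h3]⟩
  have hk3 : B ≤ k := by
    have h3 := hpb _ hs
    omega
  have hj := hk2 (i - B * (m * d + c)) (by
    have : B * (m * d + c + 1) = B * (m * d + c) + B := by ring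
    omega)
  have e1 : p (c, q) + 589824 * (i - B * (m * d + c)) = q.1 + 589824 * i := by
    obtain ⟨i', hi'⟩ : ∃ i', i = B * (m * d + c) + i' := ⟨i - B * (m * d + c), by omega⟩
    rw [hi', Nat.add_sub_cancel_left, hp]
    simp only
    ring
  rw [e1] at hj
  exact hj

end Pool.Agent.H15.Cyc.Sv
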