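import Mathlib
import Pool.Agent.H15.Cyc.Sv.Chk

set_option autoImplicit false

/-!
The classes modulo `9 * 2 ^ 16` cover everything.
-/

namespace Pool.Agent.H15.Cyc.Sv

/-- the action on classes -/
def Aff (f : ℕ → ℕ) : Prop := ∀ t v, f (t + 2 * v) = f t + (if t % 2 = 0 then v else 3 * v)

theorem affP : Aff fP := by
  intro t v
  rw [fP_eq, fP_eq]
  split_ifs <;> omega

theorem affN : Aff fN := by
  intro t v
  rw [fN_eq, fN_eq]
  split_ifs <;> omega

/-- some iterate is smaller -/
def G (f : ℕ → ℕ) (y : ℕ) : Prop := ∃ j, f^[j] y < y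

/-- a child is dropped -/
def drop (f : ℕ → ℕ) (w' r' t' u' : ℕ) : Bool :=
  cond (Nat.blt u' w') (cond (Nat.blt (Nat.add t' u') (Nat.add r' w'))
    (cond (Nat.blt t' r') true (sm f r')) false) false

/-- all classes -/
def lv (f : ℕ → ℕ) : ℕ → ℕ → ℕ → ℕ → ℕ → List (ℕ × ℕ × ℕ)
  | 0, w, r, t, u => [if r = 17 then (r + w, t + u, u) else (r, t, u)]
  | k + 1, w, r, t, u =>
    (if drop f (2 * w) r (f t) (if t % 2 = 0 then u else 3 * u) = true then []
      else lv f k (2 * w) r (f t) (if t % 2 = 0 then u else 3 * u)) ++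
    (if drop f (2 * w) (r + w) (f (t + u)) (if (t + u) % 2 = 0 then u else 3 * u) = true then []
      else lv f k (2 * w) (r + w) (f (t + u)) (if (t + u) % 2 = 0 then u else 3 * u))

theorem u_eq (t u : ℕ) : cond (Nat.beq (Nat.mod t 2) 0) u (Nat.mul 3 u) = if t % 2 = 0 then u else 3 * u := by
  rcases Nat.mod_two_eq_zero_or_one t with h | h
  · have e : Nat.beq (Nat.mod t 2) 0 = true := by
      change Nat.beq (t % 2) 0 = true
      rw [h]; rfl
    rw [e, if_pos h]; rfl
  · have e : Nat.beq (Nat.mod t 2) 0 = false := by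
      change Nat.beq (t % 2) 0 = false
      rw [h]; rfl
    rw [e, if_neg (by omega)]; rfl

/-- the filter -/
def flt (lo hi : ℕ) (q : ℕ × ℕ × ℕ) : Bool := Nat.ble lo q.2.2 && Nat.blt q.2.2 hi

theorem leaves_eq (f : ℕ → ℕ) (lo hi k : ℕ) : ∀ w r t u acc,
    leaves f lo hi k w r t u acc = (lv f k w r t u).filter (flt lo hi) ++ acc := by
  induction k with
  | zero =>
    intro w r t u acc
    have h1 : leaves f lo hi 0 w r t u acc = cond (Nat.ble lo u) (cond (Nat.blt u hi)
      (cond (Nat.beq r 17) ((r + w, t + u, u) :: acc) ((r, t, u) :: acc)) acc) acc := rfl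
    rw [h1, lv]
    have h2 : cond (Nat.beq r 17) ((r + w, t + u, u) :: acc) ((r, t, u) :: acc) =
        [if r = 17 then (r + w, t + u, u) else (r, t, u)] ++ acc := by
      by_cases h : r = 17
      · rw [if_pos h, h]; rfl
      · have e : Nat.beq r 17 = false := by
          cases hb : Nat.beq r 17
          · rfl
          · exact absurd (Nat.eq_of_beq_eq_true hb) h
        rw [if_neg h, e]; rfl
    rw [h2]
    have h3 : flt lo hi (if r = 17 then (r + w, t + u, u) else (r, t, u)) =
        (Nat.ble lo u && Nat.blt u hi) := by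
      split_ifs <;> rfl
    rw [List.filter_cons, h3, List.filter_nil]
    cases Nat.ble lo u <;> cases Nat.blt u hi <;> rfl
  | succ k ih =>
    intro w r t u acc
    -- the branch
    have hbr : ∀ (r' t1 : ℕ) (acc' : List (ℕ × ℕ × ℕ)),
        cond (Nat.blt (cond (Nat.beq (Nat.mod t1 2) 0) u (Nat.mul 3 u)) (Nat.mul 2 w))
          (cond (Nat.blt (Nat.add (f t1) (cond (Nat.beq (Nat.mod t1 2) 0) u (Nat.mul 3 u)))
              (Nat.add r' (Nat.mul 2 w)))
            (cond (Nat.blt (f t1) r') acc' (cond (sm f r') acc' (leaves f lo hi k (Nat.mul 2 w) r' (f t1)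
              (cond (Nat.beq (Nat.mod t1 2) 0) u (Nat.mul 3 u)) acc')))
            (leaves f lo hi k (Nat.mul 2 w) r' (f t1)
              (cond (Nat.beq (Nat.mod t1 2) 0) u (Nat.mul 3 u)) acc'))
          (leaves f lo hi k (Nat.mul 2 w) r' (f t1)
            (cond (Nat.beq (Nat.mod t1 2) 0) u (Nat.mul 3 u)) acc') =
        (if drop f (2 * w) r' (f t1) (if t1 % 2 = 0 then u else 3 * u) = true then []
          else lv f k (2 * w) r' (f t1) (if t1 % 2 = 0 then u else 3 * u)).filter (flt lo hi) ++ acc' := by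
      intro r' t1 acc'
      rw [u_eq, ih]
      change _ = (if cond (Nat.blt _ (Nat.mul 2 w)) (cond (Nat.blt (Nat.add _ _) (Nat.add r' (Nat.mul 2 w)))
        (cond (Nat.blt (f t1) r') true (sm f r')) false) false = true then [] else _).filter _ ++ acc'
      cases h1 : Nat.blt (if t1 % 2 = 0 then u else 3 * u) (Nat.mul 2 w)
      · simp
      · cases h2 : Nat.blt (Nat.add (f t1) (if t1 % 2 = 0 then u else 3 * u)) (Nat.add r' (Nat.mul 2 w))
        · simp
        · cases h3 : Nat.blt (f t1) r'
          · cases h4 : sm f r'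
            · simp
            · simp
          · simp
    have h1 : leaves f lo hi (k + 1) w r t u acc =
        (fun (r' t1 : ℕ) (acc' : List (ℕ × ℕ × ℕ)) =>
        cond (Nat.blt (cond (Nat.beq (Nat.mod t1 2) 0) u (Nat.mul 3 u)) (Nat.mul 2 w))
          (cond (Nat.blt (Nat.add (f t1) (cond (Nat.beq (Nat.mod t1 2) 0) u (Nat.mul 3 u)))
              (Nat.add r' (Nat.mul 2 w)))
            (cond (Nat.blt (f t1) r') acc' (cond (sm f r') acc' (leaves f lo hi k (Nat.mul 2 w) r' (f t1)
              (cond (Nat.beq (Nat.mod t1 2) 0) u (Nat.mul 3 u)) acc')))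
            (leaves f lo hi k (Nat.mul 2 w) r' (f t1)
              (cond (Nat.beq (Nat.mod t1 2) 0) u (Nat.mul 3 u)) acc'))
          (leaves f lo hi k (Nat.mul 2 w) r' (f t1)
            (cond (Nat.beq (Nat.mod t1 2) 0) u (Nat.mul 3 u)) acc')) r t
        ((fun (r' t1 : ℕ) (acc' : List (ℕ × ℕ × ℕ)) =>
        cond (Nat.blt (cond (Nat.beq (Nat.mod t1 2) 0) u (Nat.mul 3 u)) (Nat.mul 2 w))
          (cond (Nat.blt (Nat.add (f t1) (cond (Nat.beq (Nat.mod t1 2) 0) u (Nat.mul 3 u)))
              (Nat.add r' (Nat.mul 2 w)))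
            (cond (Nat.blt (f t1) r') acc' (cond (sm f r') acc' (leaves f lo hi k (Nat.mul 2 w) r' (f t1)
              (cond (Nat.beq (Nat.mod t1 2) 0) u (Nat.mul 3 u)) acc')))
            (leaves f lo hi k (Nat.mul 2 w) r' (f t1)
              (cond (Nat.beq (Nat.mod t1 2) 0) u (Nat.mul 3 u)) acc'))
          (leaves f lo hi k (Nat.mul 2 w) r' (f t1)
            (cond (Nat.beq (Nat.mod t1 2) 0) u (Nat.mul 3 u)) acc')) (r + w) (t + u) acc) := rfl
    rw [h1]
    simp only [hbr]
    rw [lv, List.filter_append, List.append_assoc]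

theorem below_spec (f : ℕ → ℕ) (m k : ℕ) : ∀ n, below f m k n = true → ∃ j, f^[j] n < m := by
  induction k with
  | zero => intro n h; exact absurd h (by simp [below])
  | succ k ih =>
    intro n h
    have h1 : cond (Nat.blt n m) true (below f m k (f n)) = true := h
    cases h2 : Nat.blt n m
    · rw [h2] at h1
      obtain ⟨j, hj⟩ := ih (f n) h1
      exact ⟨j + 1, by rwa [Function.iterate_succ_apply]⟩
    · refine ⟨0, ?_⟩
      simpa [Nat.blt] using h2

theorem sm_spec (f : ℕ → ℕ) (r : ℕ) (h : sm f r = true) : r ≤ 1 ∨ G f r := by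
  unfold sm at h
  cases h1 : Nat.ble r 1
  · rw [h1] at h
    right
    obtain ⟨j, hj⟩ := below_spec f r 200 (f r) h
    exact ⟨j + 1, by rwa [Function.iterate_succ_apply]⟩
  · left
    exact Nat.le_of_ble_eq_true h1

theorem drop_spec (f : ℕ → ℕ) (w' r' t' u' j : ℕ) (h : drop f w' r' t' u' = true)
    (hc : ∀ i, f^[j] (r' + w' * i) = t' + u' * i) (i : ℕ) :
    r' + w' * i ≤ 1 ∨ G f (r' + w' * i) := by
  unfold drop at h
  cases h1 : Nat.blt u' w'
  · rw [h1] at h; simp at h
  · rw [h1] at h
    cases h2 : Nat.blt (Nat.add t' u') (Nat.add r' w')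
    · rw [h2] at h; simp at h
    · rw [h2] at h
      have h1' : u' < w' := by simpa [Nat.blt] using h1
      have h2' : t' + u' < r' + w' := by simpa [Nat.blt] using h2
      rcases Nat.eq_zero_or_pos i with hi | hi
      · rw [hi, mul_zero, add_zero]
        cases h3 : Nat.blt t' r'
        · rw [h3] at h
          exact sm_spec f r' h
        · have h3' : t' < r' := by simpa [Nat.blt] using h3
          right
          have := hc 0
          rw [mul_zero, mul_zero, add_zero, add_zero] at this
          exact ⟨j, by rw [this]; exact h3'⟩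
      · right
        refine ⟨j, ?_⟩
        rw [hc]
        obtain ⟨i', rfl⟩ : ∃ i', i = i' + 1 := ⟨i - 1, by omega⟩
        have : u' * i' ≤ w' * i' := Nat.mul_le_mul_right _ h1'.le
        have e1 : t' + u' * (i' + 1) = t' + u' + u' * i' := by ring
        have e2 : r' + w' * (i' + 1) = r' + w' + w' * i' := by ring
        omega

theorem child (f : ℕ → ℕ) (hf : Aff f) (w r t u j : ℕ) (hc : ∀ i, f^[j] (r + w * i) = t + u * i) :
    (∀ i, f^[j + 1] (r + 2 * w * i) = f t + (if t % 2 = 0 then u else 3 * u) * i) ∧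
    (∀ i, f^[j + 1] (r + w + 2 * w * i) = f (t + u) + (if (t + u) % 2 = 0 then u else 3 * u) * i) := by
  constructor
  · intro i
    have h1 := hc (2 * i)
    have h2 : r + w * (2 * i) = r + 2 * w * i := by ring
    have h3 : t + u * (2 * i) = t + 2 * (u * i) := by ring
    rw [h2, h3] at h1
    rw [Function.iterate_succ_apply', h1, hf]
    split_ifs <;> ring
  · intro i
    have h1 := hc (1 + 2 * i)
    have h2 : r + w * (1 + 2 * i) = r + w + 2 * w * i := by ring
    have h3 : t + u * (1 + 2 * i) = t + u + 2 * (u * i) := by ring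
    rw [h2, h3] at h1
    rw [Function.iterate_succ_apply', h1, hf]
    split_ifs <;> ring

/-- the classes of the list -/
theorem lv_class (f : ℕ → ℕ) (hf : Aff f) (k : ℕ) : ∀ w r t u j,
    (∀ i, f^[j] (r + w * i) = t + u * i) → ∀ q ∈ lv f k w r t u,
      ∀ i, f^[j + k] (q.1 + 2 ^ k * w * i) = q.2.1 + q.2.2 * i := by
  induction k with
  | zero =>
    intro w r t u j hc q hq i
    rw [lv, List.mem_singleton] at hq
    rw [pow_zero, one_mul, add_zero]
    by_cases h : r = 17
    · rw [if_pos h] at hq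
      rw [hq]
      have := hc (i + 1)
      simp only
      rw [show r + w + w * i = r + w * (i + 1) by ring, this]; ring
    · rw [if_neg h] at hq
      rw [hq]
      exact hc i
  | succ k ih =>
    intro w r t u j hc q hq i
    obtain ⟨hc0, hc1⟩ := child f hf w r t u j hc
    rw [lv, List.mem_append] at hq
    have e : 2 ^ (k + 1) * w * i = 2 ^ k * (2 * w) * i := by ring
    rw [e, show j + (k + 1) = (j + 1) + k by ring]
    generalize (if t % 2 = 0 then u else 3 * u) = u0 at *
    generalize (if (t + u) % 2 = 0 then u else 3 * u) = u1 at *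
    rcases hq with hq | hq
    · split_ifs at hq with h1
      · simp at hq
      · exact ih _ _ _ _ _ hc0 q hq i
    · split_ifs at hq with h1
      · simp at hq
      · exact ih _ _ _ _ _ hc1 q hq i

/-- the residues are small -/
theorem lv_small (f : ℕ → ℕ) (k : ℕ) : ∀ w r t u, r < w → ∀ q ∈ lv f k w r t u,
    q.1 < 2 * (2 ^ k * w) := by
  induction k with
  | zero =>
    intro w r t u hr q hq
    rw [lv, List.mem_singleton] at hq
    by_cases h : r = 17
    · rw [if_pos h] at hq
      rw [hq]; simp only; omega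
    · rw [if_neg h] at hq
      rw [hq]; simp only; omega
  | succ k ih =>
    intro w r t u hr q hq
    rw [lv, List.mem_append] at hq
    have e : 2 * (2 ^ (k + 1) * w) = 2 * (2 ^ k * (2 * w)) := by ring
    rw [e]
    generalize (if t % 2 = 0 then u else 3 * u) = u0 at *
    generalize (if (t + u) % 2 = 0 then u else 3 * u) = u1 at *
    rcases hq with hq | hq
    · split_ifs at hq with h1
      · simp at hq
      · exact ih _ _ _ _ (by omega) q hq
    · split_ifs at hq with h1
      · simp at hq
      · exact ih _ _ _ _ (by omega) q hq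

/-- **The classes cover everything.** -/
theorem lv_cover (f : ℕ → ℕ) (hf : Aff f) (k : ℕ) : ∀ w r t u j,
    (∀ i, f^[j] (r + w * i) = t + u * i) → ∀ i,
      (r + w * i ≤ 1 ∨ r + w * i = 17 ∨ G f (r + w * i)) ∨
      ∃ q ∈ lv f k w r t u, ∃ i', r + w * i = q.1 + 2 ^ k * w * i' := by
  induction k with
  | zero =>
    intro w r t u j hc i
    by_cases h : r = 17
    · rcases Nat.eq_zero_or_pos i with hi | hi
      · left; right; left
        rw [hi, mul_zero, add_zero, h]
      · right
        refine ⟨(r + w, t + u, u), by rw [lv, if_pos h]; exact List.mem_singleton.2 rfl, i - 1, ?_⟩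
        obtain ⟨i', rfl⟩ : ∃ i', i = i' + 1 := ⟨i - 1, by omega⟩
        rw [Nat.add_sub_cancel]
        ring
    · right
      refine ⟨(r, t, u), by rw [lv, if_neg h]; exact List.mem_singleton.2 rfl, i, ?_⟩
      ring
  | succ k ih =>
    intro w r t u j hc i
    obtain ⟨hc0, hc1⟩ := child f hf w r t u j hc
    rw [lv]
    generalize (if t % 2 = 0 then u else 3 * u) = u0 at *
    generalize (if (t + u) % 2 = 0 then u else 3 * u) = u1 at *
    rcases Nat.even_or_odd' i with ⟨i', hi | hi⟩
    · have e : r + w * i = r + 2 * w * i' := by rw [hi]; ring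
      rw [e]
      by_cases hd : drop f (2 * w) r (f t) u0 = true
      · left
        rcases drop_spec f (2 * w) r (f t) u0 (j + 1) hd hc0 i' with h | h
        · left; exact h
        · right; right; exact h
      · rcases ih (2 * w) r (f t) u0 (j + 1) hc0 i' with h | ⟨q, hq, i'', hi''⟩
        · left; exact h
        · right
          refine ⟨q, ?_, i'', ?_⟩
          · rw [List.mem_append, if_neg hd]
            left; exact hq
          · rw [hi'']; ring
    · have e : r + w * i = r + w + 2 * w * i' := by rw [hi]; ring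
      rw [e]
      by_cases hd : drop f (2 * w) (r + w) (f (t + u)) u1 = true
      · left
        rcases drop_spec f (2 * w) (r + w) (f (t + u)) u1 (j + 1) hd hc1 i' with h | h
        · left; exact h
        · right; right; exact h
      · rcases ih (2 * w) (r + w) (f (t + u)) u1 (j + 1) hc1 i' with h | ⟨q, hq, i'', hi''⟩
        · left; exact h
        · right
          refine ⟨q, ?_, i'', ?_⟩
          · rw [List.mem_append, if_neg (show ¬ drop f (2 * w) (r + w) (f (t + u)) u1 = true from hd)]
            right; exact hq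
          · rw [hi'']; ring

/-- all classes for the starting classes -/
def lvs (f : ℕ → ℕ) (roots : List ℕ) : List (ℕ × ℕ × ℕ) := roots.flatMap fun c => lv f 16 9 c c 9

theorem lanes_eq (f : ℕ → ℕ) (lo hi : ℕ) (roots : List ℕ) :
    lanes f lo hi roots = (lvs f roots).filter (flt lo hi) := by
  induction roots with
  | nil => rfl
  | cons c roots ih =>
    have h1 : lanes f lo hi (c :: roots) = leaves f lo hi 16 9 c c 9 (lanes f lo hi roots) := rfl
    rw [h1, leaves_eq, ih]
    unfold lvs
    rw [List.flatMap_cons, List.filter_append]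

theorem lvs_class (f : ℕ → ℕ) (hf : Aff f) (roots : List ℕ) (hr : ∀ c ∈ roots, c < 9) :
    ∀ q ∈ lvs f roots, q.1 < 2 ^ 22 ∧ ∀ i, f^[16] (q.1 + 589824 * i) = q.2.1 + q.2.2 * i := by
  intro q hq
  unfold lvs at hq
  rw [List.mem_flatMap] at hq
  obtain ⟨c, hc, hq⟩ := hq
  constructor
  · have := lv_small f 16 9 c c 9 (hr c hc) q hq
    omega
  · intro i
    have := lv_class f hf 16 9 c c 9 0 (fun i => rfl) q hq i
    norm_num at this
    exact this

theorem lvs_cover (f : ℕ → ℕ) (hf : Aff f) (roots : List ℕ) (y : ℕ) (hy : y % 9 ∈ roots) :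
    (y ≤ 1 ∨ y = 17 ∨ G f y) ∨ ∃ q ∈ lvs f roots, ∃ i, y = q.1 + 589824 * i := by
  have e : y = y % 9 + 9 * (y / 9) := (Nat.mod_add_div y 9).symm
  rcases lv_cover f hf 16 9 (y % 9) (y % 9) 9 0 (fun i => rfl) (y / 9) with h | ⟨q, hq, i, hi⟩
  · rw [← e] at h
    left; exact h
  · rw [← e] at hi
    right
    refine ⟨q, ?_, i, ?_⟩
    · unfold lvs
      rw [List.mem_flatMap]
      exact ⟨_, hy, hq⟩
    · norm_num at hi
      exact hi

theorem base_spec (f : ℕ → ℕ) (lo hi : ℕ) (roots : List ℕ) (n p z a : ℕ)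
    (h : base f lo hi roots n p z a = true) :
    (lanes f lo hi roots).length = n ∧ pk ((lanes f lo hi roots).map fun q => q.1) = p ∧
      pk ((lanes f lo hi roots).map fun q => q.2.1) = z ∧
      pk ((lanes f lo hi roots).map fun q => q.2.2) = a := by
  unfold base at h
  obtain ⟨h1, h2⟩ := cond_true h
  obtain ⟨h3, h4⟩ := cond_true h2
  obtain ⟨h5, h6⟩ := cond_true h4
  exact ⟨beq_true h1, beq_true h3, beq_true h5, beq_true h6⟩

/-- all elements of a class, from the blocks -/
theorem group_spec {st : ℕ → ℕ → ℕ} {f : ℕ → ℕ} (hst : Stp st f) (hf : Aff f) (lo hi : ℕ)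
    (roots : List ℕ) (hr : ∀ c ∈ roots, c < 9) (n p z a : ℕ)
    (hbase : base f lo hi roots n p z a = true) (m B D : ℕ) (hB : B * (m * D) ≤ 2 ^ 15)
    (h : ∀ d < D, ∃ R, chk st n p z a m B d R = true) (q : ℕ × ℕ × ℕ) (hq : q ∈ lvs f roots)
    (h1 : lo ≤ q.2.2) (h2 : q.2.2 < hi) (i : ℕ) (hi' : i < B * (m * D)) :
    G f (q.1 + 589824 * i) := by
  obtain ⟨b1, b2, b3, b4⟩ := base_spec f lo hi roots n p z a hbase
  have hq' : q ∈ lanes f lo hi roots := by
    rw [lanes_eq, List.mem_filter]
    refine ⟨hq, ?_⟩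
    unfold flt
    rw [Bool.and_eq_true]
    exact ⟨Nat.ble_eq_true_of_le h1, Nat.ble_eq_true_of_le h2⟩
  have hBm : 0 < B * m := by
    rcases Nat.eq_zero_or_pos (B * m) with h0 | h0
    · rw [← mul_assoc, h0, zero_mul] at hi'
      omega
    · exact h0
  obtain ⟨d, hd1, hd2⟩ : ∃ d, B * m * d ≤ i ∧ i < B * m * (d + 1) :=
    ⟨i / (B * m), Nat.mul_div_le i _, Nat.lt_mul_div_succ i hBm⟩
  have hdD : d < D := by
    by_contra hcon
    push Not at hcon
    have : B * m * D ≤ B * m * d := Nat.mul_le_mul_left _ hcon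
    rw [← mul_assoc] at hi'
    omega
  obtain ⟨R, hR⟩ := h d hdD
  have hbd : B * (m * (d + 1)) ≤ 2 ^ 15 := by
    refine le_trans ?_ hB
    apply Nat.mul_le_mul_left
    apply Nat.mul_le_mul_left
    omega
  have := chk_spec hst (lanes f lo hi roots) n p z a m B d R b1 b2 b3 b4 (fun q hq => by
    rw [lanes_eq, List.mem_filter] at hq
    exact lvs_class f hf roots hr q hq.1) hbd hR q hq' i (by rw [← mul_assoc]; exact hd1)
      (by rw [← mul_assoc]; exact hd2)
  exact this

end Pool.Agent.H15.Cyc.Sv
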