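import Mathlib
import Pool.Agent.H15.Cyc.Sv.Leaves
import Pool.Agent.H15.Cyc.Sv.CN0x0
import Pool.Agent.H15.Cyc.Sv.CN0x1
import Pool.Agent.H15.Cyc.Sv.CN0x2
import Pool.Agent.H15.Cyc.Sv.CN0x3
import Pool.Agent.H15.Cyc.Sv.CN1x0
import Pool.Agent.H15.Cyc.Sv.CN1x1
import Pool.Agent.H15.Cyc.Sv.CN1x2
import Pool.Agent.H15.Cyc.Sv.CN1x3
import Pool.Agent.H15.Cyc.Sv.CN2x0
import Pool.Agent.H15.Cyc.Sv.CN2x1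
import Pool.Agent.H15.Cyc.Sv.CN3x0
import Pool.Agent.H15.Cyc.Sv.CN3x1
import Pool.Agent.H15.Cyc.Sv.KN

set_option autoImplicit false

/-!
All classes are verified.
-/

namespace Pool.Agent.H15.Cyc.Sv

theorem hN0 : ∀ d < 96, ∃ R, chk stN 4805 bN0p bN0z bN0a 1 52 d R = true := by
  obtain ⟨h0, h1, h2, h3, h4, h5, h6, h7, h8, h9, h10, h11, h12, h13, h14, h15, h16, h17, h18, h19, h20, h21, h22, h23⟩ := cN0x0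
  obtain ⟨h24, h25, h26, h27, h28, h29, h30, h31, h32, h33, h34, h35, h36, h37, h38, h39, h40, h41, h42, h43, h44, h45, h46, h47⟩ := cN0x1
  obtain ⟨h48, h49, h50, h51, h52, h53, h54, h55, h56, h57, h58, h59, h60, h61, h62, h63, h64, h65, h66, h67, h68, h69, h70, h71⟩ := cN0x2
  obtain ⟨h72, h73, h74, h75, h76, h77, h78, h79, h80, h81, h82, h83, h84, h85, h86, h87, h88, h89, h90, h91, h92, h93, h94, h95⟩ := cN0x3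
  intro d hd
  interval_cases d
  · exact ⟨_, h0⟩
  · exact ⟨_, h1⟩
  · exact ⟨_, h2⟩
  · exact ⟨_, h3⟩
  · exact ⟨_, h4⟩
  · exact ⟨_, h5⟩
  · exact ⟨_, h6⟩
  · exact ⟨_, h7⟩
  · exact ⟨_, h8⟩
  · exact ⟨_, h9⟩
  · exact ⟨_, h10⟩
  · exact ⟨_, h11⟩
  · exact ⟨_, h12⟩
  · exact ⟨_, h13⟩
  · exact ⟨_, h14⟩
  · exact ⟨_, h15⟩
  · exact ⟨_, h16⟩
  · exact ⟨_, h17⟩
  · exact ⟨_, h18⟩
  · exact ⟨_, h19⟩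
  · exact ⟨_, h20⟩
  · exact ⟨_, h21⟩
  · exact ⟨_, h22⟩
  · exact ⟨_, h23⟩
  · exact ⟨_, h24⟩
  · exact ⟨_, h25⟩
  · exact ⟨_, h26⟩
  · exact ⟨_, h27⟩
  · exact ⟨_, h28⟩
  · exact ⟨_, h29⟩
  · exact ⟨_, h30⟩
  · exact ⟨_, h31⟩
  · exact ⟨_, h32⟩
  · exact ⟨_, h33⟩
  · exact ⟨_, h34⟩
  · exact ⟨_, h35⟩
  · exact ⟨_, h36⟩
  · exact ⟨_, h37⟩
  · exact ⟨_, h38⟩
  · exact ⟨_, h39⟩
  · exact ⟨_, h40⟩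
  · exact ⟨_, h41⟩
  · exact ⟨_, h42⟩
  · exact ⟨_, h43⟩
  · exact ⟨_, h44⟩
  · exact ⟨_, h45⟩
  · exact ⟨_, h46⟩
  · exact ⟨_, h47⟩
  · exact ⟨_, h48⟩
  · exact ⟨_, h49⟩
  · exact ⟨_, h50⟩
  · exact ⟨_, h51⟩
  · exact ⟨_, h52⟩
  · exact ⟨_, h53⟩
  · exact ⟨_, h54⟩
  · exact ⟨_, h55⟩
  · exact ⟨_, h56⟩
  · exact ⟨_, h57⟩
  · exact ⟨_, h58⟩
  · exact ⟨_, h59⟩
  · exact ⟨_, h60⟩
  · exact ⟨_, h61⟩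
  · exact ⟨_, h62⟩
  · exact ⟨_, h63⟩
  · exact ⟨_, h64⟩
  · exact ⟨_, h65⟩
  · exact ⟨_, h66⟩
  · exact ⟨_, h67⟩
  · exact ⟨_, h68⟩
  · exact ⟨_, h69⟩
  · exact ⟨_, h70⟩
  · exact ⟨_, h71⟩
  · exact ⟨_, h72⟩
  · exact ⟨_, h73⟩
  · exact ⟨_, h74⟩
  · exact ⟨_, h75⟩
  · exact ⟨_, h76⟩
  · exact ⟨_, h77⟩
  · exact ⟨_, h78⟩
  · exact ⟨_, h79⟩
  · exact ⟨_, h80⟩
  · exact ⟨_, h81⟩
  · exact ⟨_, h82⟩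
  · exact ⟨_, h83⟩
  · exact ⟨_, h84⟩
  · exact ⟨_, h85⟩
  · exact ⟨_, h86⟩
  · exact ⟨_, h87⟩
  · exact ⟨_, h88⟩
  · exact ⟨_, h89⟩
  · exact ⟨_, h90⟩
  · exact ⟨_, h91⟩
  · exact ⟨_, h92⟩
  · exact ⟨_, h93⟩
  · exact ⟨_, h94⟩
  · exact ⟨_, h95⟩

theorem hN1 : ∀ d < 104, ∃ R, chk stN 3650 bN1p bN1z bN1a 1 48 d R = true := by
  obtain ⟨h0, h1, h2, h3, h4, h5, h6, h7, h8, h9, h10, h11, h12, h13, h14, h15, h16, h17, h18, h19, h20, h21, h22, h23, h24, h25⟩ := cN1x0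
  obtain ⟨h26, h27, h28, h29, h30, h31, h32, h33, h34, h35, h36, h37, h38, h39, h40, h41, h42, h43, h44, h45, h46, h47, h48, h49, h50, h51⟩ := cN1x1
  obtain ⟨h52, h53, h54, h55, h56, h57, h58, h59, h60, h61, h62, h63, h64, h65, h66, h67, h68, h69, h70, h71, h72, h73, h74, h75, h76, h77⟩ := cN1x2
  obtain ⟨h78, h79, h80, h81, h82, h83, h84, h85, h86, h87, h88, h89, h90, h91, h92, h93, h94, h95, h96, h97, h98, h99, h100, h101, h102, h103⟩ := cN1x3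
  intro d hd
  interval_cases d
  · exact ⟨_, h0⟩
  · exact ⟨_, h1⟩
  · exact ⟨_, h2⟩
  · exact ⟨_, h3⟩
  · exact ⟨_, h4⟩
  · exact ⟨_, h5⟩
  · exact ⟨_, h6⟩
  · exact ⟨_, h7⟩
  · exact ⟨_, h8⟩
  · exact ⟨_, h9⟩
  · exact ⟨_, h10⟩
  · exact ⟨_, h11⟩
  · exact ⟨_, h12⟩
  · exact ⟨_, h13⟩
  · exact ⟨_, h14⟩
  · exact ⟨_, h15⟩
  · exact ⟨_, h16⟩
  · exact ⟨_, h17⟩
  · exact ⟨_, h18⟩
  · exact ⟨_, h19⟩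
  · exact ⟨_, h20⟩
  · exact ⟨_, h21⟩
  · exact ⟨_, h22⟩
  · exact ⟨_, h23⟩
  · exact ⟨_, h24⟩
  · exact ⟨_, h25⟩
  · exact ⟨_, h26⟩
  · exact ⟨_, h27⟩
  · exact ⟨_, h28⟩
  · exact ⟨_, h29⟩
  · exact ⟨_, h30⟩
  · exact ⟨_, h31⟩
  · exact ⟨_, h32⟩
  · exact ⟨_, h33⟩
  · exact ⟨_, h34⟩
  · exact ⟨_, h35⟩
  · exact ⟨_, h36⟩
  · exact ⟨_, h37⟩
  · exact ⟨_, h38⟩
  · exact ⟨_, h39⟩
  · exact ⟨_, h40⟩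
  · exact ⟨_, h41⟩
  · exact ⟨_, h42⟩
  · exact ⟨_, h43⟩
  · exact ⟨_, h44⟩
  · exact ⟨_, h45⟩
  · exact ⟨_, h46⟩
  · exact ⟨_, h47⟩
  · exact ⟨_, h48⟩
  · exact ⟨_, h49⟩
  · exact ⟨_, h50⟩
  · exact ⟨_, h51⟩
  · exact ⟨_, h52⟩
  · exact ⟨_, h53⟩
  · exact ⟨_, h54⟩
  · exact ⟨_, h55⟩
  · exact ⟨_, h56⟩
  · exact ⟨_, h57⟩
  · exact ⟨_, h58⟩
  · exact ⟨_, h59⟩
  · exact ⟨_, h60⟩
  · exact ⟨_, h61⟩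
  · exact ⟨_, h62⟩
  · exact ⟨_, h63⟩
  · exact ⟨_, h64⟩
  · exact ⟨_, h65⟩
  · exact ⟨_, h66⟩
  · exact ⟨_, h67⟩
  · exact ⟨_, h68⟩
  · exact ⟨_, h69⟩
  · exact ⟨_, h70⟩
  · exact ⟨_, h71⟩
  · exact ⟨_, h72⟩
  · exact ⟨_, h73⟩
  · exact ⟨_, h74⟩
  · exact ⟨_, h75⟩
  · exact ⟨_, h76⟩
  · exact ⟨_, h77⟩
  · exact ⟨_, h78⟩
  · exact ⟨_, h79⟩
  · exact ⟨_, h80⟩
  · exact ⟨_, h81⟩
  · exact ⟨_, h82⟩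
  · exact ⟨_, h83⟩
  · exact ⟨_, h84⟩
  · exact ⟨_, h85⟩
  · exact ⟨_, h86⟩
  · exact ⟨_, h87⟩
  · exact ⟨_, h88⟩
  · exact ⟨_, h89⟩
  · exact ⟨_, h90⟩
  · exact ⟨_, h91⟩
  · exact ⟨_, h92⟩
  · exact ⟨_, h93⟩
  · exact ⟨_, h94⟩
  · exact ⟨_, h95⟩
  · exact ⟨_, h96⟩
  · exact ⟨_, h97⟩
  · exact ⟨_, h98⟩
  · exact ⟨_, h99⟩
  · exact ⟨_, h100⟩
  · exact ⟨_, h101⟩
  · exact ⟨_, h102⟩
  · exact ⟨_, h103⟩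

theorem hN2 : ∀ d < 64, ∃ R, chk stN 1600 bN2p bN2z bN2a 3 26 d R = true := by
  obtain ⟨h0, h1, h2, h3, h4, h5, h6, h7, h8, h9, h10, h11, h12, h13, h14, h15, h16, h17, h18, h19, h20, h21, h22, h23, h24, h25, h26, h27, h28, h29, h30, h31⟩ := cN2x0
  obtain ⟨h32, h33, h34, h35, h36, h37, h38, h39, h40, h41, h42, h43, h44, h45, h46, h47, h48, h49, h50, h51, h52, h53, h54, h55, h56, h57, h58, h59, h60, h61, h62, h63⟩ := cN2x1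
  intro d hd
  interval_cases d
  · exact ⟨_, h0⟩
  · exact ⟨_, h1⟩
  · exact ⟨_, h2⟩
  · exact ⟨_, h3⟩
  · exact ⟨_, h4⟩
  · exact ⟨_, h5⟩
  · exact ⟨_, h6⟩
  · exact ⟨_, h7⟩
  · exact ⟨_, h8⟩
  · exact ⟨_, h9⟩
  · exact ⟨_, h10⟩
  · exact ⟨_, h11⟩
  · exact ⟨_, h12⟩
  · exact ⟨_, h13⟩
  · exact ⟨_, h14⟩
  · exact ⟨_, h15⟩
  · exact ⟨_, h16⟩
  · exact ⟨_, h17⟩
  · exact ⟨_, h18⟩
  · exact ⟨_, h19⟩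
  · exact ⟨_, h20⟩
  · exact ⟨_, h21⟩
  · exact ⟨_, h22⟩
  · exact ⟨_, h23⟩
  · exact ⟨_, h24⟩
  · exact ⟨_, h25⟩
  · exact ⟨_, h26⟩
  · exact ⟨_, h27⟩
  · exact ⟨_, h28⟩
  · exact ⟨_, h29⟩
  · exact ⟨_, h30⟩
  · exact ⟨_, h31⟩
  · exact ⟨_, h32⟩
  · exact ⟨_, h33⟩
  · exact ⟨_, h34⟩
  · exact ⟨_, h35⟩
  · exact ⟨_, h36⟩
  · exact ⟨_, h37⟩
  · exact ⟨_, h38⟩
  · exact ⟨_, h39⟩
  · exact ⟨_, h40⟩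
  · exact ⟨_, h41⟩
  · exact ⟨_, h42⟩
  · exact ⟨_, h43⟩
  · exact ⟨_, h44⟩
  · exact ⟨_, h45⟩
  · exact ⟨_, h46⟩
  · exact ⟨_, h47⟩
  · exact ⟨_, h48⟩
  · exact ⟨_, h49⟩
  · exact ⟨_, h50⟩
  · exact ⟨_, h51⟩
  · exact ⟨_, h52⟩
  · exact ⟨_, h53⟩
  · exact ⟨_, h54⟩
  · exact ⟨_, h55⟩
  · exact ⟨_, h56⟩
  · exact ⟨_, h57⟩
  · exact ⟨_, h58⟩
  · exact ⟨_, h59⟩
  · exact ⟨_, h60⟩
  · exact ⟨_, h61⟩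
  · exact ⟨_, h62⟩
  · exact ⟨_, h63⟩

theorem hN3 : ∀ d < 40, ∃ R, chk stN 515 bN3p bN3z bN3a 9 14 d R = true := by
  obtain ⟨h0, h1, h2, h3, h4, h5, h6, h7, h8, h9, h10, h11, h12, h13, h14, h15, h16, h17, h18, h19⟩ := cN3x0
  obtain ⟨h20, h21, h22, h23, h24, h25, h26, h27, h28, h29, h30, h31, h32, h33, h34, h35, h36, h37, h38, h39⟩ := cN3x1
  intro d hd
  interval_cases d
  · exact ⟨_, h0⟩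
  · exact ⟨_, h1⟩
  · exact ⟨_, h2⟩
  · exact ⟨_, h3⟩
  · exact ⟨_, h4⟩
  · exact ⟨_, h5⟩
  · exact ⟨_, h6⟩
  · exact ⟨_, h7⟩
  · exact ⟨_, h8⟩
  · exact ⟨_, h9⟩
  · exact ⟨_, h10⟩
  · exact ⟨_, h11⟩
  · exact ⟨_, h12⟩
  · exact ⟨_, h13⟩
  · exact ⟨_, h14⟩
  · exact ⟨_, h15⟩
  · exact ⟨_, h16⟩
  · exact ⟨_, h17⟩
  · exact ⟨_, h18⟩
  · exact ⟨_, h19⟩
  · exact ⟨_, h20⟩
  · exact ⟨_, h21⟩
  · exact ⟨_, h22⟩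
  · exact ⟨_, h23⟩
  · exact ⟨_, h24⟩
  · exact ⟨_, h25⟩
  · exact ⟨_, h26⟩
  · exact ⟨_, h27⟩
  · exact ⟨_, h28⟩
  · exact ⟨_, h29⟩
  · exact ⟨_, h30⟩
  · exact ⟨_, h31⟩
  · exact ⟨_, h32⟩
  · exact ⟨_, h33⟩
  · exact ⟨_, h34⟩
  · exact ⟨_, h35⟩
  · exact ⟨_, h36⟩
  · exact ⟨_, h37⟩
  · exact ⟨_, h38⟩
  · exact ⟨_, h39⟩

theorem goodN (y : ℕ) (hy : y < 2900000000) (hm : y % 9 ∈ [0, 2, 3, 6, 8]) :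
    y ≤ 1 ∨ y = 17 ∨ G fN y := by
  have hr : ∀ c ∈ [0, 2, 3, 6, 8], c < 9 := by decide
  obtain ⟨k0, k1, k2, k3⟩ := kN
  rcases lvs_cover fN affN _ y hm with h | ⟨q, hq, i, hi⟩
  · exact h
  · right; right
    have hi2 : i < 4917 := by omega
    obtain ⟨hq1, hq2⟩ := lvs_class fN affN _ hr q hq
    have hu : q.2.2 < 1000000000000000000 := by
      have h4 := hq2 1
      have h6 := iter_bound stN_spec 16 (q.1 + 589824 * 1)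
      rw [h4] at h6
      omega
    rw [hi]
    rcases Nat.lt_or_ge q.2.2 4782969 with h1 | h1
    · exact group_spec stN_spec affN _ _ _ hr _ _ _ _ k0 1 52 96 (by norm_num) hN0 q hq
        (Nat.zero_le _) h1 i (by omega)
    rcases Nat.lt_or_ge q.2.2 14348907 with h2 | h2
    · exact group_spec stN_spec affN _ _ _ hr _ _ _ _ k1 1 48 104 (by norm_num) hN1 q hq
        h1 h2 i (by omega)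
    rcases Nat.lt_or_ge q.2.2 43046721 with h3 | h3
    · exact group_spec stN_spec affN _ _ _ hr _ _ _ _ k2 3 26 64 (by norm_num) hN2 q hq
        h2 h3 i (by omega)
    · exact group_spec stN_spec affN _ _ _ hr _ _ _ _ k3 9 14 40 (by norm_num) hN3 q hq
        h3 hu i (by omega)

end Pool.Agent.H15.Cyc.Sv
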