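import Pool.Agent.H15.Cyc.Sv.Vec
import Pool.Agent.H15.Cyc.Sv.BaseP

set_option autoImplicit false

namespace Pool.Agent.H15.Cyc.Sv

theorem cP0x0 :
    chk stP 4805 bP0p bP0z bP0a 1 52 0 134 = true ∧
    chk stP 4805 bP0p bP0z bP0a 1 52 1 142 = true ∧
    chk stP 4805 bP0p bP0z bP0a 1 52 2 133 = true ∧
    chk stP 4805 bP0p bP0z bP0a 1 52 3 142 = true ∧
    chk stP 4805 bP0p bP0z bP0a 1 52 4 137 = true ∧
    chk stP 4805 bP0p bP0z bP0a 1 52 5 148 = true ∧
    chk stP 4805 bP0p bP0z bP0a 1 52 6 140 = true ∧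
    chk stP 4805 bP0p bP0z bP0a 1 52 7 135 = true ∧
    chk stP 4805 bP0p bP0z bP0a 1 52 8 141 = true ∧
    chk stP 4805 bP0p bP0z bP0a 1 52 9 131 = true ∧
    chk stP 4805 bP0p bP0z bP0a 1 52 10 141 = true ∧
    chk stP 4805 bP0p bP0z bP0a 1 52 11 137 = true ∧
    chk stP 4805 bP0p bP0z bP0a 1 52 12 147 = true ∧
    chk stP 4805 bP0p bP0z bP0a 1 52 13 142 = true ∧
    chk stP 4805 bP0p bP0z bP0a 1 52 14 130 = true ∧
    chk stP 4805 bP0p bP0z bP0a 1 52 15 135 = true ∧
    chk stP 4805 bP0p bP0z bP0a 1 52 16 132 = true ∧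
    chk stP 4805 bP0p bP0z bP0a 1 52 17 144 = true ∧
    chk stP 4805 bP0p bP0z bP0a 1 52 18 137 = true ∧
    chk stP 4805 bP0p bP0z bP0a 1 52 19 160 = true ∧
    chk stP 4805 bP0p bP0z bP0a 1 52 20 141 = true ∧
    chk stP 4805 bP0p bP0z bP0a 1 52 21 149 = true ∧
    chk stP 4805 bP0p bP0z bP0a 1 52 22 143 = true ∧
    chk stP 4805 bP0p bP0z bP0a 1 52 23 145 = true :=
  ⟨by decide +kernel,
    by decide +kernel,
    by decide +kernel,
    by decide +kernel,
    by decide +kernel,
    by decide +kernel,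
    by decide +kernel,
    by decide +kernel,
    by decide +kernel,
    by decide +kernel,
    by decide +kernel,
    by decide +kernel,
    by decide +kernel,
    by decide +kernel,
    by decide +kernel,
    by decide +kernel,
    by decide +kernel,
    by decide +kernel,
    by decide +kernel,
    by decide +kernel,
    by decide +kernel,
    by decide +kernel,
    by decide +kernel,
    by decide +kernel⟩

end Pool.Agent.H15.Cyc.Sv
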