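import Pool.Agent.H15.Cyc.Sv.Vec
import Pool.Agent.H15.Cyc.Sv.BaseP

set_option autoImplicit false

namespace Pool.Agent.H15.Cyc.Sv

theorem cP0x1 :
    chk stP 4805 bP0p bP0z bP0a 1 52 24 140 = true ∧
    chk stP 4805 bP0p bP0z bP0a 1 52 25 142 = true ∧
    chk stP 4805 bP0p bP0z bP0a 1 52 26 136 = true ∧
    chk stP 4805 bP0p bP0z bP0a 1 52 27 129 = true ∧
    chk stP 4805 bP0p bP0z bP0a 1 52 28 134 = true ∧
    chk stP 4805 bP0p bP0z bP0a 1 52 29 138 = true ∧
    chk stP 4805 bP0p bP0z bP0a 1 52 30 136 = true ∧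
    chk stP 4805 bP0p bP0z bP0a 1 52 31 134 = true ∧
    chk stP 4805 bP0p bP0z bP0a 1 52 32 141 = true ∧
    chk stP 4805 bP0p bP0z bP0a 1 52 33 139 = true ∧
    chk stP 4805 bP0p bP0z bP0a 1 52 34 143 = true ∧
    chk stP 4805 bP0p bP0z bP0a 1 52 35 133 = true ∧
    chk stP 4805 bP0p bP0z bP0a 1 52 36 146 = true ∧
    chk stP 4805 bP0p bP0z bP0a 1 52 37 139 = true ∧
    chk stP 4805 bP0p bP0z bP0a 1 52 38 145 = true ∧
    chk stP 4805 bP0p bP0z bP0a 1 52 39 137 = true ∧
    chk stP 4805 bP0p bP0z bP0a 1 52 40 136 = true ∧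
    chk stP 4805 bP0p bP0z bP0a 1 52 41 142 = true ∧
    chk stP 4805 bP0p bP0z bP0a 1 52 42 138 = true ∧
    chk stP 4805 bP0p bP0z bP0a 1 52 43 137 = true ∧
    chk stP 4805 bP0p bP0z bP0a 1 52 44 134 = true ∧
    chk stP 4805 bP0p bP0z bP0a 1 52 45 136 = true ∧
    chk stP 4805 bP0p bP0z bP0a 1 52 46 140 = true ∧
    chk stP 4805 bP0p bP0z bP0a 1 52 47 146 = true :=
  ⟨by decide +kernel,
    by decide +kernel,
    by decide +kernel,
    by decide +kernel,
    by decide +kernel,
    by decide +kernel,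
    by decide +kernel,
    by decide +kernel,
    by decide +kernel,
    by decide +kernel,
    by decide +kernel,
    by decide +kernel,
    by decide +kernel,
    by decide +kernel,
    by decide +kernel,
    by decide +kernel,
    by decide +kernel,
    by decide +kernel,
    by decide +kernel,
    by decide +kernel,
    by decide +kernel,
    by decide +kernel,
    by decide +kernel,
    by decide +kernel⟩

end Pool.Agent.H15.Cyc.Sv
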