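import Pool.Agent.H15.Cyc.Sv.Vec
import Pool.Agent.H15.Cyc.Sv.BaseP

set_option autoImplicit false

namespace Pool.Agent.H15.Cyc.Sv

theorem cP0x2 :
    chk stP 4805 bP0p bP0z bP0a 1 52 48 132 = true ∧
    chk stP 4805 bP0p bP0z bP0a 1 52 49 137 = true ∧
    chk stP 4805 bP0p bP0z bP0a 1 52 50 138 = true ∧
    chk stP 4805 bP0p bP0z bP0a 1 52 51 134 = true ∧
    chk stP 4805 bP0p bP0z bP0a 1 52 52 140 = true ∧
    chk stP 4805 bP0p bP0z bP0a 1 52 53 137 = true ∧
    chk stP 4805 bP0p bP0z bP0a 1 52 54 140 = true ∧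
    chk stP 4805 bP0p bP0z bP0a 1 52 55 141 = true ∧
    chk stP 4805 bP0p bP0z bP0a 1 52 56 141 = true ∧
    chk stP 4805 bP0p bP0z bP0a 1 52 57 141 = true ∧
    chk stP 4805 bP0p bP0z bP0a 1 52 58 142 = true ∧
    chk stP 4805 bP0p bP0z bP0a 1 52 59 140 = true ∧
    chk stP 4805 bP0p bP0z bP0a 1 52 60 135 = true ∧
    chk stP 4805 bP0p bP0z bP0a 1 52 61 146 = true ∧
    chk stP 4805 bP0p bP0z bP0a 1 52 62 133 = true ∧
    chk stP 4805 bP0p bP0z bP0a 1 52 63 136 = true ∧
    chk stP 4805 bP0p bP0z bP0a 1 52 64 138 = true ∧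
    chk stP 4805 bP0p bP0z bP0a 1 52 65 141 = true ∧
    chk stP 4805 bP0p bP0z bP0a 1 52 66 142 = true ∧
    chk stP 4805 bP0p bP0z bP0a 1 52 67 132 = true ∧
    chk stP 4805 bP0p bP0z bP0a 1 52 68 143 = true ∧
    chk stP 4805 bP0p bP0z bP0a 1 52 69 134 = true ∧
    chk stP 4805 bP0p bP0z bP0a 1 52 70 131 = true ∧
    chk stP 4805 bP0p bP0z bP0a 1 52 71 138 = true :=
  ⟨by decide +kernel,
    by decide +kernel,
    by decide +kernel,
    by decide +kernel,
    by decide +kernel,
    by decide +kernel,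
    by decide +kernel,
    by decide +kernel,
    by decide +kernel,
    by decide +kernel,
    by decide +kernel,
    by decide +kernel,
    by decide +kernel,
    by decide +kernel,
    by decide +kernel,
    by decide +kernel,
    by decide +kernel,
    by decide +kernel,
    by decide +kernel,
    by decide +kernel,
    by decide +kernel,
    by decide +kernel,
    by decide +kernel,
    by decide +kernel⟩

end Pool.Agent.H15.Cyc.Sv
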