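import Pool.Agent.H15.Cyc.Sv.Vec
import Pool.Agent.H15.Cyc.Sv.BaseP

set_option autoImplicit false

namespace Pool.Agent.H15.Cyc.Sv

theorem cP0x3 :
    chk stP 4805 bP0p bP0z bP0a 1 52 72 139 = true ∧
    chk stP 4805 bP0p bP0z bP0a 1 52 73 143 = true ∧
    chk stP 4805 bP0p bP0z bP0a 1 52 74 144 = true ∧
    chk stP 4805 bP0p bP0z bP0a 1 52 75 144 = true ∧
    chk stP 4805 bP0p bP0z bP0a 1 52 76 140 = true ∧
    chk stP 4805 bP0p bP0z bP0a 1 52 77 133 = true ∧
    chk stP 4805 bP0p bP0z bP0a 1 52 78 158 = true ∧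
    chk stP 4805 bP0p bP0z bP0a 1 52 79 136 = true ∧
    chk stP 4805 bP0p bP0z bP0a 1 52 80 145 = true ∧
    chk stP 4805 bP0p bP0z bP0a 1 52 81 145 = true ∧
    chk stP 4805 bP0p bP0z bP0a 1 52 82 138 = true ∧
    chk stP 4805 bP0p bP0z bP0a 1 52 83 139 = true ∧
    chk stP 4805 bP0p bP0z bP0a 1 52 84 143 = true ∧
    chk stP 4805 bP0p bP0z bP0a 1 52 85 143 = true ∧
    chk stP 4805 bP0p bP0z bP0a 1 52 86 136 = true ∧
    chk stP 4805 bP0p bP0z bP0a 1 52 87 140 = true ∧
    chk stP 4805 bP0p bP0z bP0a 1 52 88 137 = true ∧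
    chk stP 4805 bP0p bP0z bP0a 1 52 89 145 = true ∧
    chk stP 4805 bP0p bP0z bP0a 1 52 90 138 = true ∧
    chk stP 4805 bP0p bP0z bP0a 1 52 91 140 = true ∧
    chk stP 4805 bP0p bP0z bP0a 1 52 92 139 = true ∧
    chk stP 4805 bP0p bP0z bP0a 1 52 93 138 = true ∧
    chk stP 4805 bP0p bP0z bP0a 1 52 94 135 = true ∧
    chk stP 4805 bP0p bP0z bP0a 1 52 95 131 = true :=
  ⟨by decide +kernel,
    by decide +kernel,
    by decide +kernel,
    by decide +kernel,
    by decide +kernel,
    by decide +kernel,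
    by decide +kernel,
    by decide +kernel,
    by decide +kernel,
    by decide +kernel,
    by decide +kernel,
    by decide +kernel,
    by decide +kernel,
    by decide +kernel,
    by decide +kernel,
    by decide +kernel,
    by decide +kernel,
    by decide +kernel,
    by decide +kernel,
    by decide +kernel,
    by decide +kernel,
    by decide +kernel,
    by decide +kernel,
    by decide +kernel⟩

end Pool.Agent.H15.Cyc.Sv
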