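import Pool.Agent.H15.Cyc.Sv.Vec
import Pool.Agent.H15.Cyc.Sv.BaseP

set_option autoImplicit false

namespace Pool.Agent.H15.Cyc.Sv

theorem cP1x0 :
    chk stP 3650 bP1p bP1z bP1a 1 48 0 175 = true ∧
    chk stP 3650 bP1p bP1z bP1a 1 48 1 179 = true ∧
    chk stP 3650 bP1p bP1z bP1a 1 48 2 186 = true ∧
    chk stP 3650 bP1p bP1z bP1a 1 48 3 184 = true ∧
    chk stP 3650 bP1p bP1z bP1a 1 48 4 184 = true ∧
    chk stP 3650 bP1p bP1z bP1a 1 48 5 184 = true ∧
    chk stP 3650 bP1p bP1z bP1a 1 48 6 175 = true ∧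
    chk stP 3650 bP1p bP1z bP1a 1 48 7 184 = true ∧
    chk stP 3650 bP1p bP1z bP1a 1 48 8 177 = true ∧
    chk stP 3650 bP1p bP1z bP1a 1 48 9 181 = true ∧
    chk stP 3650 bP1p bP1z bP1a 1 48 10 176 = true ∧
    chk stP 3650 bP1p bP1z bP1a 1 48 11 194 = true ∧
    chk stP 3650 bP1p bP1z bP1a 1 48 12 175 = true ∧
    chk stP 3650 bP1p bP1z bP1a 1 48 13 188 = true ∧
    chk stP 3650 bP1p bP1z bP1a 1 48 14 181 = true ∧
    chk stP 3650 bP1p bP1z bP1a 1 48 15 175 = true ∧
    chk stP 3650 bP1p bP1z bP1a 1 48 16 177 = true ∧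
    chk stP 3650 bP1p bP1z bP1a 1 48 17 190 = true ∧
    chk stP 3650 bP1p bP1z bP1a 1 48 18 182 = true ∧
    chk stP 3650 bP1p bP1z bP1a 1 48 19 179 = true ∧
    chk stP 3650 bP1p bP1z bP1a 1 48 20 181 = true ∧
    chk stP 3650 bP1p bP1z bP1a 1 48 21 171 = true ∧
    chk stP 3650 bP1p bP1z bP1a 1 48 22 172 = true ∧
    chk stP 3650 bP1p bP1z bP1a 1 48 23 180 = true ∧
    chk stP 3650 bP1p bP1z bP1a 1 48 24 196 = true ∧
    chk stP 3650 bP1p bP1z bP1a 1 48 25 177 = true :=
  ⟨by decide +kernel,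
    by decide +kernel,
    by decide +kernel,
    by decide +kernel,
    by decide +kernel,
    by decide +kernel,
    by decide +kernel,
    by decide +kernel,
    by decide +kernel,
    by decide +kernel,
    by decide +kernel,
    by decide +kernel,
    by decide +kernel,
    by decide +kernel,
    by decide +kernel,
    by decide +kernel,
    by decide +kernel,
    by decide +kernel,
    by decide +kernel,
    by decide +kernel,
    by decide +kernel,
    by decide +kernel,
    by decide +kernel,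
    by decide +kernel,
    by decide +kernel,
    by decide +kernel⟩

end Pool.Agent.H15.Cyc.Sv
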