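import Pool.Agent.H15.Cyc.Sv.Vec
import Pool.Agent.H15.Cyc.Sv.BaseP

set_option autoImplicit false

namespace Pool.Agent.H15.Cyc.Sv

theorem cP1x1 :
    chk stP 3650 bP1p bP1z bP1a 1 48 26 183 = true ∧
    chk stP 3650 bP1p bP1z bP1a 1 48 27 175 = true ∧
    chk stP 3650 bP1p bP1z bP1a 1 48 28 177 = true ∧
    chk stP 3650 bP1p bP1z bP1a 1 48 29 186 = true ∧
    chk stP 3650 bP1p bP1z bP1a 1 48 30 186 = true ∧
    chk stP 3650 bP1p bP1z bP1a 1 48 31 187 = true ∧
    chk stP 3650 bP1p bP1z bP1a 1 48 32 177 = true ∧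
    chk stP 3650 bP1p bP1z bP1a 1 48 33 198 = true ∧
    chk stP 3650 bP1p bP1z bP1a 1 48 34 183 = true ∧
    chk stP 3650 bP1p bP1z bP1a 1 48 35 180 = true ∧
    chk stP 3650 bP1p bP1z bP1a 1 48 36 187 = true ∧
    chk stP 3650 bP1p bP1z bP1a 1 48 37 186 = true ∧
    chk stP 3650 bP1p bP1z bP1a 1 48 38 183 = true ∧
    chk stP 3650 bP1p bP1z bP1a 1 48 39 187 = true ∧
    chk stP 3650 bP1p bP1z bP1a 1 48 40 179 = true ∧
    chk stP 3650 bP1p bP1z bP1a 1 48 41 176 = true ∧
    chk stP 3650 bP1p bP1z bP1a 1 48 42 185 = true ∧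
    chk stP 3650 bP1p bP1z bP1a 1 48 43 199 = true ∧
    chk stP 3650 bP1p bP1z bP1a 1 48 44 186 = true ∧
    chk stP 3650 bP1p bP1z bP1a 1 48 45 177 = true ∧
    chk stP 3650 bP1p bP1z bP1a 1 48 46 173 = true ∧
    chk stP 3650 bP1p bP1z bP1a 1 48 47 178 = true ∧
    chk stP 3650 bP1p bP1z bP1a 1 48 48 176 = true ∧
    chk stP 3650 bP1p bP1z bP1a 1 48 49 181 = true ∧
    chk stP 3650 bP1p bP1z bP1a 1 48 50 180 = true ∧
    chk stP 3650 bP1p bP1z bP1a 1 48 51 182 = true :=
  ⟨by decide +kernel,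
    by decide +kernel,
    by decide +kernel,
    by decide +kernel,
    by decide +kernel,
    by decide +kernel,
    by decide +kernel,
    by decide +kernel,
    by decide +kernel,
    by decide +kernel,
    by decide +kernel,
    by decide +kernel,
    by decide +kernel,
    by decide +kernel,
    by decide +kernel,
    by decide +kernel,
    by decide +kernel,
    by decide +kernel,
    by decide +kernel,
    by decide +kernel,
    by decide +kernel,
    by decide +kernel,
    by decide +kernel,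
    by decide +kernel,
    by decide +kernel,
    by decide +kernel⟩

end Pool.Agent.H15.Cyc.Sv
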