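import Pool.Agent.H15.Cyc.Sv.Vec
import Pool.Agent.H15.Cyc.Sv.BaseP

set_option autoImplicit false

namespace Pool.Agent.H15.Cyc.Sv

theorem cP1x2 :
    chk stP 3650 bP1p bP1z bP1a 1 48 52 178 = true ∧
    chk stP 3650 bP1p bP1z bP1a 1 48 53 181 = true ∧
    chk stP 3650 bP1p bP1z bP1a 1 48 54 178 = true ∧
    chk stP 3650 bP1p bP1z bP1a 1 48 55 180 = true ∧
    chk stP 3650 bP1p bP1z bP1a 1 48 56 180 = true ∧
    chk stP 3650 bP1p bP1z bP1a 1 48 57 194 = true ∧
    chk stP 3650 bP1p bP1z bP1a 1 48 58 182 = true ∧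
    chk stP 3650 bP1p bP1z bP1a 1 48 59 184 = true ∧
    chk stP 3650 bP1p bP1z bP1a 1 48 60 176 = true ∧
    chk stP 3650 bP1p bP1z bP1a 1 48 61 176 = true ∧
    chk stP 3650 bP1p bP1z bP1a 1 48 62 184 = true ∧
    chk stP 3650 bP1p bP1z bP1a 1 48 63 180 = true ∧
    chk stP 3650 bP1p bP1z bP1a 1 48 64 195 = true ∧
    chk stP 3650 bP1p bP1z bP1a 1 48 65 177 = true ∧
    chk stP 3650 bP1p bP1z bP1a 1 48 66 173 = true ∧
    chk stP 3650 bP1p bP1z bP1a 1 48 67 185 = true ∧
    chk stP 3650 bP1p bP1z bP1a 1 48 68 191 = true ∧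
    chk stP 3650 bP1p bP1z bP1a 1 48 69 178 = true ∧
    chk stP 3650 bP1p bP1z bP1a 1 48 70 198 = true ∧
    chk stP 3650 bP1p bP1z bP1a 1 48 71 174 = true ∧
    chk stP 3650 bP1p bP1z bP1a 1 48 72 171 = true ∧
    chk stP 3650 bP1p bP1z bP1a 1 48 73 188 = true ∧
    chk stP 3650 bP1p bP1z bP1a 1 48 74 187 = true ∧
    chk stP 3650 bP1p bP1z bP1a 1 48 75 191 = true ∧
    chk stP 3650 bP1p bP1z bP1a 1 48 76 192 = true ∧
    chk stP 3650 bP1p bP1z bP1a 1 48 77 183 = true :=
  ⟨by decide +kernel,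
    by decide +kernel,
    by decide +kernel,
    by decide +kernel,
    by decide +kernel,
    by decide +kernel,
    by decide +kernel,
    by decide +kernel,
    by decide +kernel,
    by decide +kernel,
    by decide +kernel,
    by decide +kernel,
    by decide +kernel,
    by decide +kernel,
    by decide +kernel,
    by decide +kernel,
    by decide +kernel,
    by decide +kernel,
    by decide +kernel,
    by decide +kernel,
    by decide +kernel,
    by decide +kernel,
    by decide +kernel,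
    by decide +kernel,
    by decide +kernel,
    by decide +kernel⟩

end Pool.Agent.H15.Cyc.Sv
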