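import Pool.Agent.H15.Cyc.Sv.Vec
import Pool.Agent.H15.Cyc.Sv.BaseP

set_option autoImplicit false

namespace Pool.Agent.H15.Cyc.Sv

theorem cP1x3 :
    chk stP 3650 bP1p bP1z bP1a 1 48 78 181 = true ∧
    chk stP 3650 bP1p bP1z bP1a 1 48 79 178 = true ∧
    chk stP 3650 bP1p bP1z bP1a 1 48 80 178 = true ∧
    chk stP 3650 bP1p bP1z bP1a 1 48 81 186 = true ∧
    chk stP 3650 bP1p bP1z bP1a 1 48 82 182 = true ∧
    chk stP 3650 bP1p bP1z bP1a 1 48 83 179 = true ∧
    chk stP 3650 bP1p bP1z bP1a 1 48 84 183 = true ∧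
    chk stP 3650 bP1p bP1z bP1a 1 48 85 179 = true ∧
    chk stP 3650 bP1p bP1z bP1a 1 48 86 177 = true ∧
    chk stP 3650 bP1p bP1z bP1a 1 48 87 179 = true ∧
    chk stP 3650 bP1p bP1z bP1a 1 48 88 180 = true ∧
    chk stP 3650 bP1p bP1z bP1a 1 48 89 182 = true ∧
    chk stP 3650 bP1p bP1z bP1a 1 48 90 186 = true ∧
    chk stP 3650 bP1p bP1z bP1a 1 48 91 181 = true ∧
    chk stP 3650 bP1p bP1z bP1a 1 48 92 175 = true ∧
    chk stP 3650 bP1p bP1z bP1a 1 48 93 188 = true ∧
    chk stP 3650 bP1p bP1z bP1a 1 48 94 179 = true ∧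
    chk stP 3650 bP1p bP1z bP1a 1 48 95 179 = true ∧
    chk stP 3650 bP1p bP1z bP1a 1 48 96 179 = true ∧
    chk stP 3650 bP1p bP1z bP1a 1 48 97 194 = true ∧
    chk stP 3650 bP1p bP1z bP1a 1 48 98 184 = true ∧
    chk stP 3650 bP1p bP1z bP1a 1 48 99 178 = true ∧
    chk stP 3650 bP1p bP1z bP1a 1 48 100 181 = true ∧
    chk stP 3650 bP1p bP1z bP1a 1 48 101 183 = true ∧
    chk stP 3650 bP1p bP1z bP1a 1 48 102 172 = true ∧
    chk stP 3650 bP1p bP1z bP1a 1 48 103 214 = true :=
  ⟨by decide +kernel,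
    by decide +kernel,
    by decide +kernel,
    by decide +kernel,
    by decide +kernel,
    by decide +kernel,
    by decide +kernel,
    by decide +kernel,
    by decide +kernel,
    by decide +kernel,
    by decide +kernel,
    by decide +kernel,
    by decide +kernel,
    by decide +kernel,
    by decide +kernel,
    by decide +kernel,
    by decide +kernel,
    by decide +kernel,
    by decide +kernel,
    by decide +kernel,
    by decide +kernel,
    by decide +kernel,
    by decide +kernel,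
    by decide +kernel,
    by decide +kernel,
    by decide +kernel⟩

end Pool.Agent.H15.Cyc.Sv
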