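import Pool.Agent.H15.Cyc.Sv.Vec
import Pool.Agent.H15.Cyc.Sv.BaseP

set_option autoImplicit false

namespace Pool.Agent.H15.Cyc.Sv

theorem cP2x0 :
    chk stP 1600 bP2p bP2z bP2a 3 26 0 146 = true ∧
    chk stP 1600 bP2p bP2z bP2a 3 26 1 146 = true ∧
    chk stP 1600 bP2p bP2z bP2a 3 26 2 149 = true ∧
    chk stP 1600 bP2p bP2z bP2a 3 26 3 145 = true ∧
    chk stP 1600 bP2p bP2z bP2a 3 26 4 150 = true ∧
    chk stP 1600 bP2p bP2z bP2a 3 26 5 147 = true ∧
    chk stP 1600 bP2p bP2z bP2a 3 26 6 150 = true ∧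
    chk stP 1600 bP2p bP2z bP2a 3 26 7 143 = true ∧
    chk stP 1600 bP2p bP2z bP2a 3 26 8 155 = true ∧
    chk stP 1600 bP2p bP2z bP2a 3 26 9 143 = true ∧
    chk stP 1600 bP2p bP2z bP2a 3 26 10 146 = true ∧
    chk stP 1600 bP2p bP2z bP2a 3 26 11 157 = true ∧
    chk stP 1600 bP2p bP2z bP2a 3 26 12 158 = true ∧
    chk stP 1600 bP2p bP2z bP2a 3 26 13 142 = true ∧
    chk stP 1600 bP2p bP2z bP2a 3 26 14 141 = true ∧
    chk stP 1600 bP2p bP2z bP2a 3 26 15 168 = true ∧
    chk stP 1600 bP2p bP2z bP2a 3 26 16 149 = true ∧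
    chk stP 1600 bP2p bP2z bP2a 3 26 17 144 = true ∧
    chk stP 1600 bP2p bP2z bP2a 3 26 18 146 = true ∧
    chk stP 1600 bP2p bP2z bP2a 3 26 19 150 = true ∧
    chk stP 1600 bP2p bP2z bP2a 3 26 20 144 = true ∧
    chk stP 1600 bP2p bP2z bP2a 3 26 21 145 = true ∧
    chk stP 1600 bP2p bP2z bP2a 3 26 22 156 = true ∧
    chk stP 1600 bP2p bP2z bP2a 3 26 23 155 = true ∧
    chk stP 1600 bP2p bP2z bP2a 3 26 24 149 = true ∧
    chk stP 1600 bP2p bP2z bP2a 3 26 25 139 = true ∧
    chk stP 1600 bP2p bP2z bP2a 3 26 26 147 = true ∧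
    chk stP 1600 bP2p bP2z bP2a 3 26 27 147 = true ∧
    chk stP 1600 bP2p bP2z bP2a 3 26 28 150 = true ∧
    chk stP 1600 bP2p bP2z bP2a 3 26 29 148 = true ∧
    chk stP 1600 bP2p bP2z bP2a 3 26 30 147 = true ∧
    chk stP 1600 bP2p bP2z bP2a 3 26 31 164 = true :=
  ⟨by decide +kernel,
    by decide +kernel,
    by decide +kernel,
    by decide +kernel,
    by decide +kernel,
    by decide +kernel,
    by decide +kernel,
    by decide +kernel,
    by decide +kernel,
    by decide +kernel,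
    by decide +kernel,
    by decide +kernel,
    by decide +kernel,
    by decide +kernel,
    by decide +kernel,
    by decide +kernel,
    by decide +kernel,
    by decide +kernel,
    by decide +kernel,
    by decide +kernel,
    by decide +kernel,
    by decide +kernel,
    by decide +kernel,
    by decide +kernel,
    by decide +kernel,
    by decide +kernel,
    by decide +kernel,
    by decide +kernel,
    by decide +kernel,
    by decide +kernel,
    by decide +kernel,
    by decide +kernel⟩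

end Pool.Agent.H15.Cyc.Sv
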