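import Pool.Agent.H15.Cyc.Sv.Vec
import Pool.Agent.H15.Cyc.Sv.BaseP

set_option autoImplicit false

namespace Pool.Agent.H15.Cyc.Sv

theorem cP3x0 :
    chk stP 515 bP3p bP3z bP3a 9 14 0 122 = true ∧
    chk stP 515 bP3p bP3z bP3a 9 14 1 126 = true ∧
    chk stP 515 bP3p bP3z bP3a 9 14 2 142 = true ∧
    chk stP 515 bP3p bP3z bP3a 9 14 3 133 = true ∧
    chk stP 515 bP3p bP3z bP3a 9 14 4 129 = true ∧
    chk stP 515 bP3p bP3z bP3a 9 14 5 137 = true ∧
    chk stP 515 bP3p bP3z bP3a 9 14 6 126 = true ∧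
    chk stP 515 bP3p bP3z bP3a 9 14 7 126 = true ∧
    chk stP 515 bP3p bP3z bP3a 9 14 8 124 = true ∧
    chk stP 515 bP3p bP3z bP3a 9 14 9 123 = true ∧
    chk stP 515 bP3p bP3z bP3a 9 14 10 132 = true ∧
    chk stP 515 bP3p bP3z bP3a 9 14 11 117 = true ∧
    chk stP 515 bP3p bP3z bP3a 9 14 12 137 = true ∧
    chk stP 515 bP3p bP3z bP3a 9 14 13 129 = true ∧
    chk stP 515 bP3p bP3z bP3a 9 14 14 142 = true ∧
    chk stP 515 bP3p bP3z bP3a 9 14 15 131 = true ∧
    chk stP 515 bP3p bP3z bP3a 9 14 16 124 = true ∧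
    chk stP 515 bP3p bP3z bP3a 9 14 17 150 = true ∧
    chk stP 515 bP3p bP3z bP3a 9 14 18 123 = true ∧
    chk stP 515 bP3p bP3z bP3a 9 14 19 132 = true :=
  ⟨by decide +kernel,
    by decide +kernel,
    by decide +kernel,
    by decide +kernel,
    by decide +kernel,
    by decide +kernel,
    by decide +kernel,
    by decide +kernel,
    by decide +kernel,
    by decide +kernel,
    by decide +kernel,
    by decide +kernel,
    by decide +kernel,
    by decide +kernel,
    by decide +kernel,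
    by decide +kernel,
    by decide +kernel,
    by decide +kernel,
    by decide +kernel,
    by decide +kernel⟩

end Pool.Agent.H15.Cyc.Sv
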