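import Pool.Agent.H15.Cyc.Sv.Vec
import Pool.Agent.H15.Cyc.Sv.BaseP

set_option autoImplicit false

namespace Pool.Agent.H15.Cyc.Sv

theorem cP3x1 :
    chk stP 515 bP3p bP3z bP3a 9 14 20 128 = true ∧
    chk stP 515 bP3p bP3z bP3a 9 14 21 125 = true ∧
    chk stP 515 bP3p bP3z bP3a 9 14 22 135 = true ∧
    chk stP 515 bP3p bP3z bP3a 9 14 23 125 = true ∧
    chk stP 515 bP3p bP3z bP3a 9 14 24 120 = true ∧
    chk stP 515 bP3p bP3z bP3a 9 14 25 125 = true ∧
    chk stP 515 bP3p bP3z bP3a 9 14 26 118 = true ∧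
    chk stP 515 bP3p bP3z bP3a 9 14 27 134 = true ∧
    chk stP 515 bP3p bP3z bP3a 9 14 28 121 = true ∧
    chk stP 515 bP3p bP3z bP3a 9 14 29 126 = true ∧
    chk stP 515 bP3p bP3z bP3a 9 14 30 129 = true ∧
    chk stP 515 bP3p bP3z bP3a 9 14 31 125 = true ∧
    chk stP 515 bP3p bP3z bP3a 9 14 32 132 = true ∧
    chk stP 515 bP3p bP3z bP3a 9 14 33 126 = true ∧
    chk stP 515 bP3p bP3z bP3a 9 14 34 127 = true ∧
    chk stP 515 bP3p bP3z bP3a 9 14 35 126 = true ∧
    chk stP 515 bP3p bP3z bP3a 9 14 36 127 = true ∧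
    chk stP 515 bP3p bP3z bP3a 9 14 37 125 = true ∧
    chk stP 515 bP3p bP3z bP3a 9 14 38 122 = true ∧
    chk stP 515 bP3p bP3z bP3a 9 14 39 121 = true :=
  ⟨by decide +kernel,
    by decide +kernel,
    by decide +kernel,
    by decide +kernel,
    by decide +kernel,
    by decide +kernel,
    by decide +kernel,
    by decide +kernel,
    by decide +kernel,
    by decide +kernel,
    by decide +kernel,
    by decide +kernel,
    by decide +kernel,
    by decide +kernel,
    by decide +kernel,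
    by decide +kernel,
    by decide +kernel,
    by decide +kernel,
    by decide +kernel,
    by decide +kernel⟩

end Pool.Agent.H15.Cyc.Sv
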