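import Pool.Agent.H15.Cyc.Sv.Vec
import Pool.Agent.H15.Cyc.Sv.BaseP

set_option autoImplicit false

namespace Pool.Agent.H15.Cyc.Sv

theorem kP :
    base fP 0 4782969 [0, 1, 3, 6, 7] 4805 bP0p bP0z bP0a = true ∧
    base fP 4782969 14348907 [0, 1, 3, 6, 7] 3650 bP1p bP1z bP1a = true ∧
    base fP 14348907 43046721 [0, 1, 3, 6, 7] 1600 bP2p bP2z bP2a = true ∧
    base fP 43046721 1000000000000000000 [0, 1, 3, 6, 7] 515 bP3p bP3z bP3a = true :=
  ⟨by decide +kernel,
    by decide +kernel,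
    by decide +kernel,
    by decide +kernel⟩

end Pool.Agent.H15.Cyc.Sv
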