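import Pool.Agent.H15.Cyc.Sv.Vec
import Pool.Agent.H15.Cyc.Sv.BaseN

set_option autoImplicit false

namespace Pool.Agent.H15.Cyc.Sv

theorem cN2x1 :
    chk stN 1600 bN2p bN2z bN2a 3 26 32 149 = true ∧
    chk stN 1600 bN2p bN2z bN2a 3 26 33 149 = true ∧
    chk stN 1600 bN2p bN2z bN2a 3 26 34 153 = true ∧
    chk stN 1600 bN2p bN2z bN2a 3 26 35 146 = true ∧
    chk stN 1600 bN2p bN2z bN2a 3 26 36 148 = true ∧
    chk stN 1600 bN2p bN2z bN2a 3 26 37 149 = true ∧
    chk stN 1600 bN2p bN2z bN2a 3 26 38 151 = true ∧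
    chk stN 1600 bN2p bN2z bN2a 3 26 39 145 = true ∧
    chk stN 1600 bN2p bN2z bN2a 3 26 40 159 = true ∧
    chk stN 1600 bN2p bN2z bN2a 3 26 41 141 = true ∧
    chk stN 1600 bN2p bN2z bN2a 3 26 42 153 = true ∧
    chk stN 1600 bN2p bN2z bN2a 3 26 43 155 = true ∧
    chk stN 1600 bN2p bN2z bN2a 3 26 44 144 = true ∧
    chk stN 1600 bN2p bN2z bN2a 3 26 45 150 = true ∧
    chk stN 1600 bN2p bN2z bN2a 3 26 46 160 = true ∧
    chk stN 1600 bN2p bN2z bN2a 3 26 47 152 = true ∧
    chk stN 1600 bN2p bN2z bN2a 3 26 48 143 = true ∧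
    chk stN 1600 bN2p bN2z bN2a 3 26 49 141 = true ∧
    chk stN 1600 bN2p bN2z bN2a 3 26 50 142 = true ∧
    chk stN 1600 bN2p bN2z bN2a 3 26 51 146 = true ∧
    chk stN 1600 bN2p bN2z bN2a 3 26 52 146 = true ∧
    chk stN 1600 bN2p bN2z bN2a 3 26 53 139 = true ∧
    chk stN 1600 bN2p bN2z bN2a 3 26 54 146 = true ∧
    chk stN 1600 bN2p bN2z bN2a 3 26 55 144 = true ∧
    chk stN 1600 bN2p bN2z bN2a 3 26 56 151 = true ∧
    chk stN 1600 bN2p bN2z bN2a 3 26 57 143 = true ∧
    chk stN 1600 bN2p bN2z bN2a 3 26 58 145 = true ∧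
    chk stN 1600 bN2p bN2z bN2a 3 26 59 146 = true ∧
    chk stN 1600 bN2p bN2z bN2a 3 26 60 145 = true ∧
    chk stN 1600 bN2p bN2z bN2a 3 26 61 151 = true ∧
    chk stN 1600 bN2p bN2z bN2a 3 26 62 153 = true ∧
    chk stN 1600 bN2p bN2z bN2a 3 26 63 148 = true :=
  ⟨by decide +kernel,
    by decide +kernel,
    by decide +kernel,
    by decide +kernel,
    by decide +kernel,
    by decide +kernel,
    by decide +kernel,
    by decide +kernel,
    by decide +kernel,
    by decide +kernel,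
    by decide +kernel,
    by decide +kernel,
    by decide +kernel,
    by decide +kernel,
    by decide +kernel,
    by decide +kernel,
    by decide +kernel,
    by decide +kernel,
    by decide +kernel,
    by decide +kernel,
    by decide +kernel,
    by decide +kernel,
    by decide +kernel,
    by decide +kernel,
    by decide +kernel,
    by decide +kernel,
    by decide +kernel,
    by decide +kernel,
    by decide +kernel,
    by decide +kernel,
    by decide +kernel,
    by decide +kernel⟩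

end Pool.Agent.H15.Cyc.Sv
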