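import Pool.Agent.H15.Cyc.Sv.Vec
import Pool.Agent.H15.Cyc.Sv.BaseP

set_option autoImplicit false

namespace Pool.Agent.H15.Cyc.Sv

theorem cP2x1 :
    chk stP 1600 bP2p bP2z bP2a 3 26 32 147 = true ∧
    chk stP 1600 bP2p bP2z bP2a 3 26 33 148 = true ∧
    chk stP 1600 bP2p bP2z bP2a 3 26 34 146 = true ∧
    chk stP 1600 bP2p bP2z bP2a 3 26 35 162 = true ∧
    chk stP 1600 bP2p bP2z bP2a 3 26 36 164 = true ∧
    chk stP 1600 bP2p bP2z bP2a 3 26 37 151 = true ∧
    chk stP 1600 bP2p bP2z bP2a 3 26 38 155 = true ∧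
    chk stP 1600 bP2p bP2z bP2a 3 26 39 145 = true ∧
    chk stP 1600 bP2p bP2z bP2a 3 26 40 154 = true ∧
    chk stP 1600 bP2p bP2z bP2a 3 26 41 151 = true ∧
    chk stP 1600 bP2p bP2z bP2a 3 26 42 144 = true ∧
    chk stP 1600 bP2p bP2z bP2a 3 26 43 148 = true ∧
    chk stP 1600 bP2p bP2z bP2a 3 26 44 147 = true ∧
    chk stP 1600 bP2p bP2z bP2a 3 26 45 148 = true ∧
    chk stP 1600 bP2p bP2z bP2a 3 26 46 149 = true ∧
    chk stP 1600 bP2p bP2z bP2a 3 26 47 147 = true ∧
    chk stP 1600 bP2p bP2z bP2a 3 26 48 148 = true ∧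
    chk stP 1600 bP2p bP2z bP2a 3 26 49 162 = true ∧
    chk stP 1600 bP2p bP2z bP2a 3 26 50 149 = true ∧
    chk stP 1600 bP2p bP2z bP2a 3 26 51 143 = true ∧
    chk stP 1600 bP2p bP2z bP2a 3 26 52 150 = true ∧
    chk stP 1600 bP2p bP2z bP2a 3 26 53 157 = true ∧
    chk stP 1600 bP2p bP2z bP2a 3 26 54 146 = true ∧
    chk stP 1600 bP2p bP2z bP2a 3 26 55 150 = true ∧
    chk stP 1600 bP2p bP2z bP2a 3 26 56 141 = true ∧
    chk stP 1600 bP2p bP2z bP2a 3 26 57 138 = true ∧
    chk stP 1600 bP2p bP2z bP2a 3 26 58 150 = true ∧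
    chk stP 1600 bP2p bP2z bP2a 3 26 59 150 = true ∧
    chk stP 1600 bP2p bP2z bP2a 3 26 60 141 = true ∧
    chk stP 1600 bP2p bP2z bP2a 3 26 61 148 = true ∧
    chk stP 1600 bP2p bP2z bP2a 3 26 62 147 = true ∧
    chk stP 1600 bP2p bP2z bP2a 3 26 63 149 = true :=
  ⟨by decide +kernel,
    by decide +kernel,
    by decide +kernel,
    by decide +kernel,
    by decide +kernel,
    by decide +kernel,
    by decide +kernel,
    by decide +kernel,
    by decide +kernel,
    by decide +kernel,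
    by decide +kernel,
    by decide +kernel,
    by decide +kernel,
    by decide +kernel,
    by decide +kernel,
    by decide +kernel,
    by decide +kernel,
    by decide +kernel,
    by decide +kernel,
    by decide +kernel,
    by decide +kernel,
    by decide +kernel,
    by decide +kernel,
    by decide +kernel,
    by decide +kernel,
    by decide +kernel,
    by decide +kernel,
    by decide +kernel,
    by decide +kernel,
    by decide +kernel,
    by decide +kernel,
    by decide +kernel⟩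

end Pool.Agent.H15.Cyc.Sv
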